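import Pool.Agent.R547.MO.Defs

/-!
# The bottleneck criterion (MP_bc7fec_lc, piece AH)
-/

set_option autoImplicit false

namespace Pool.Agent.R547.MO

namespace AHP

theorem isWalk_append {x y z : ℕ} {P Q : List Arc} (hP : IsWalk x y P) (hQ : IsWalk y z Q) :
    IsWalk x z (P ++ Q) := by
  induction P generalizing x with
  | nil =>
    have h : x = y := hP
    subst h
    exact hQ
  | cons a P ih => exact ⟨hP.1, ih hP.2⟩

theorem exists_exit (S : ℕ → Prop) {x y : ℕ} {P : List Arc} (hP : IsWalk x y P) (hx : S x)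
    (hy : ¬ S y) : ∃ a ∈ P, S (src a) ∧ ¬ S (tgt a) := by
  induction P generalizing x with
  | nil =>
    have h : x = y := hP
    subst h
    exact absurd hx hy
  | cons a P ih =>
    obtain ⟨h1, h2⟩ := hP
    by_cases ha : S (tgt a)
    · obtain ⟨b, hb, hb'⟩ := ih h2 ha
      exact ⟨b, List.mem_cons_of_mem _ hb, hb'⟩
    · refine ⟨a, List.mem_cons_self, ?_, ha⟩
      rw [h1]
      exact hx

theorem all_src (S : ℕ → Prop) {x y : ℕ} {Q : List Arc} (hQ : IsWalk x y Q) (hx : S x)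
    (h : ∀ c ∈ Q, S (src c) → S (tgt c)) : ∀ c ∈ Q, S (src c) := by
  induction Q generalizing x with
  | nil =>
    intro c hc
    simp at hc
  | cons a Q ih =>
    obtain ⟨h1, h2⟩ := hQ
    have ha : S (src a) := by
      rw [h1]
      exact hx
    intro c hc
    rcases List.mem_cons.1 hc with rfl | hc
    · exact ha
    · exact ih h2 (h a List.mem_cons_self ha) (fun c hc => h c (List.mem_cons_of_mem _ hc)) c hc

theorem entry_unique (S : ℕ → Prop) {x y : ℕ} {Q : List Arc} (hQ : IsWalk x y Q)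
    (h : ∀ c ∈ Q, S (src c) → S (tgt c)) {b b' : Arc} (hb : b ∈ Q) (hb' : b' ∈ Q)
    (h1 : ¬ S (src b)) (h2 : S (tgt b)) (h1' : ¬ S (src b')) (h2' : S (tgt b')) : b = b' := by
  induction Q generalizing x with
  | nil => simp at hb
  | cons a Q ih =>
    obtain ⟨_, hw⟩ := hQ
    have h' : ∀ c ∈ Q, S (src c) → S (tgt c) := fun c hc => h c (List.mem_cons_of_mem _ hc)
    rcases List.mem_cons.1 hb with e | hm
    · rcases List.mem_cons.1 hb' with e' | hm'
      · rw [e, e']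
      · subst e
        exact absurd (all_src S hw h2 h' b' hm') h1'
    · rcases List.mem_cons.1 hb' with e' | hm'
      · subst e'
        exact absurd (all_src S hw h2' h' b hm) h1
      · exact ih hw h' hm hm'

end AHP

theorem ah (hS : SimpStmt) (hC : ConsStmt) : AHStmt := by
  intro L x x1 y1 y hL
  constructor
  · rintro ⟨P, Q, hP, hQ, hPL, hQL, hPQ⟩
    refine ⟨⟨P, hP, hPL⟩, Q, hQ, fun b hb => ⟨hQL b hb, fun a ha hn => ?_⟩⟩
    by_cases haP : a ∈ P
    · exact hPQ a haP b hb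
    · exact absurd ⟨P, hP, fun c hc => ⟨hPL c hc, fun h => haP (h ▸ hc)⟩⟩ hn
  · rintro ⟨⟨P, hP, hPL⟩, Q0, hQ0, hQ0L⟩
    obtain ⟨Q, hsub, hQ, hnd, hy⟩ := hS Q0 y1 y hQ0
    have hQL2 : ∀ b ∈ Q, L b ∧ ∀ a, L a → ¬ Reach (fun c => L c ∧ c ≠ a) x x1 → ¬ conf a b :=
      fun b hb => hQ0L b (hsub.subset hb)
    have hQL : ∀ b ∈ Q, L b := fun b hb => (hQL2 b hb).1
    have hQQ : ∀ a ∈ Q, ∀ b ∈ Q, ¬ conf a b := hC L Q y1 y hL hQ hQL hnd hy
    let S : ℕ → Prop := fun v => Reach (fun a => L a ∧ ∀ b ∈ Q, ¬ conf a b) x v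
    have hSstep : ∀ a, L a → (∀ b ∈ Q, ¬ conf a b) → S (src a) → S (tgt a) := by
      rintro a ha hab ⟨R, hR, hRL⟩
      refine ⟨R ++ [a], AHP.isWalk_append hR ⟨rfl, rfl⟩, ?_⟩
      intro c hc
      rcases List.mem_append.1 hc with hc | hc
      · exact hRL c hc
      · rw [List.mem_singleton.1 hc]
        exact ⟨ha, hab⟩
    have hx : S x := ⟨[], rfl, fun a ha => by simp at ha⟩
    by_cases hx1 : S x1
    · obtain ⟨R, hR, hRL⟩ := hx1
      exact ⟨R, Q, hR, hQ, fun a ha => (hRL a ha).1, hQL, fun a ha => (hRL a ha).2⟩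
    · exfalso
      have hexit : ∀ R : List Arc, IsWalk x x1 R → (∀ a ∈ R, L a) →
          ∃ a ∈ R, ∃ b ∈ Q, conf a b ∧ ¬ S (src b) ∧ S (tgt b) := by
        intro R hR hRL
        obtain ⟨a, ha, h1, h2⟩ := AHP.exists_exit S hR hx hx1
        by_cases hab : ∀ b ∈ Q, ¬ conf a b
        · exact absurd (hSstep a (hRL a ha) hab h1) h2
        · push Not at hab
          obtain ⟨b, hb, hc⟩ := hab
          obtain ⟨e1, e2⟩ := hL.rev a b (hRL a ha) (hQL b hb) hc
          exact ⟨a, ha, b, hb, hc, by rw [e1]; exact h2, by rw [e2]; exact h1⟩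
      have hclosed : ∀ c ∈ Q, S (src c) → S (tgt c) := fun c hc =>
        hSstep c (hQL c hc) (fun b hb => hQQ c hc b hb)
      obtain ⟨a, ha, b, hb, hab, hb1, hb2⟩ := hexit P hP hPL
      refine (hQL2 b hb).2 a (hPL a ha) ?_ hab
      rintro ⟨R, hR, hRL⟩
      obtain ⟨a', ha', b', hb', hab', hb1', hb2'⟩ := hexit R hR (fun c hc => (hRL c hc).1)
      obtain rfl := AHP.entry_unique S hQ hclosed hb hb' hb1 hb2 hb1' hb2'
      refine (hRL a' ha').2 (hL.det a' a (hRL a' ha').1 (hPL a ha) (hab'.1.trans hab.1.symm) ?_)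
      have h1 := hab.2
      have h2 := hab'.2
      revert h1 h2
      cases dir a <;> cases dir a' <;> cases dir b <;> simp

end Pool.Agent.R547.MO
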