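import Pool.Agent.R547.MO.Defs
import Pool.Agent.R547.MO.Reach
import Pool.Agent.ER.Rat

/-!
# The algorithm, and its running time
-/

set_option autoImplicit false

namespace Pool.Agent.R547.MO

open Pool.Agent.NPC

/-- reachability of vertices -/
def reachL (V : List ℕ) (L : List Arc) (x y : ℕ) : Bool :=
  decide (y ∈ reachG (fun u v => L.any fun a => decide (a.1 = u) && decide (a.2.1 = v)) V x)

/-- test for conflicts -/
def confb (a b : Arc) : Bool := decide (a.2.2.2.1 = b.2.2.2.1) && !decide (a.2.2.2.2 = b.2.2.2.2)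

/-- the bottleneck criterion -/
def bottb (V : List ℕ) (L : List Arc) (x x1 y1 y : ℕ) : Bool :=
  reachL V L x x1 && reachL V (L.filter fun b => L.all fun a =>
    reachL V (L.filter fun c => !decide (c = a)) x x1 || !confb a b) y1 y

/-- the level -/
def hb (M : ℕ) (Tp Tq : List (ℕ × ℕ)) (x : ℕ) : ℕ := val M Tp x + val M Tq x

/-- arcs tight for the first potential -/
def ptl (M : ℕ) (Tp : List (ℕ × ℕ)) (B : List Arc) : List Arc :=
  B.filter fun a => decide (val M Tp a.2.1 = val M Tp a.1 + a.2.2.1)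

/-- arcs tight for the second potential -/
def qtl (M : ℕ) (Tq : List (ℕ × ℕ)) (B : List Arc) : List Arc :=
  B.filter fun a => decide (val M Tq a.1 = val M Tq a.2.1 + a.2.2.1)

/-- first kind of moves -/
def step1 (M : ℕ) (Tp Tq : List (ℕ × ℕ)) (B : List Arc) (z z' : ℕ × ℕ) : Bool :=
  decide (hb M Tp Tq z.1 < hb M Tp Tq z.2) && (decide (z'.2 = z.2) &&
    (ptl M Tp B).any fun a => decide (a.1 = z.1) && decide (a.2.1 = z'.1))

/-- second kind of moves -/
def step2 (M : ℕ) (Tp Tq : List (ℕ × ℕ)) (B : List Arc) (z z' : ℕ × ℕ) : Bool :=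
  decide (hb M Tp Tq z.2 < hb M Tp Tq z.1) && (decide (z'.1 = z.1) &&
    (qtl M Tq B).any fun b => decide (b.2.1 = z.2) && decide (b.1 = z'.2))

/-- the condition on the two arcs in the third kind of moves -/
def pairb (V : List ℕ) (M : ℕ) (Tp Tq : List (ℕ × ℕ)) (L : List Arc) (z z' : ℕ × ℕ)
    (a b : Arc) : Bool :=
  decide (hb M Tp Tq a.1 = hb M Tp Tq z.1) && (decide (hb M Tp Tq a.1 < hb M Tp Tq a.2.1) &&
    (decide (hb M Tp Tq b.2.1 = hb M Tp Tq z.1) && (decide (hb M Tp Tq b.2.1 < hb M Tp Tq b.1) &&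
      (!confb a b && (bottb V L z.1 a.1 b.2.1 z.2 && (decide (a.2.1 = z'.1) &&
        decide (b.1 = z'.2)))))))

/-- third kind of moves -/
def step3 (V : List ℕ) (M : ℕ) (Tp Tq : List (ℕ × ℕ)) (B : List Arc) (z z' : ℕ × ℕ) : Bool :=
  decide (hb M Tp Tq z.1 = hb M Tp Tq z.2) &&
    (ptl M Tp B).any fun a => (qtl M Tq B).any fun b =>
      pairb V M Tp Tq (qtl M Tq (ptl M Tp B)) z z' a b

/-- moves -/
def stepb (V : List ℕ) (M : ℕ) (Tp Tq : List (ℕ × ℕ)) (B : List Arc) (z z' : ℕ × ℕ) : Bool :=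
  step1 M Tp Tq B z z' || (step2 M Tp Tq B z z' || step3 V M Tp Tq B z z')

/-- accepting states -/
def finalb (V : List ℕ) (M : ℕ) (Tp Tq : List (ℕ × ℕ)) (B : List Arc) (t : ℕ) (z : ℕ × ℕ) :
    Bool :=
  decide (hb M Tp Tq z.1 = hb M Tp Tq z.2) &&
    bottb V (qtl M Tq (ptl M Tp B)) z.1 t t z.2

/-- the search with given tables -/
def srch (V : List ℕ) (M : ℕ) (Tp Tq : List (ℕ × ℕ)) (B : List Arc) (s t : ℕ) : Bool :=
  (reachG (stepb V M Tp Tq B) (V ×ˢ V) (s, s)).any (finalb V M Tp Tq B t)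

/-- the reversed arc -/
def revA (a : Arc) : Arc := (a.2.1, a.1, a.2.2.1, a.2.2.2.1, a.2.2.2.2)

/-- the algorithm with given tables -/
def withT (V : List ℕ) (M : ℕ) (Tp Tq : List (ℕ × ℕ)) (B : List Arc) (s t : ℕ) : Bool :=
  decide (M ≤ val M Tp t) || (decide (M ≤ val M Tq t) || srch V M Tp Tq B s t)

/-- the algorithm for labelled arcs -/
def coreb (V : List ℕ) (M : ℕ) (B : List Arc) (s t : ℕ) : Bool :=
  withT V M (bf B V M s) (bf (B.map revA) V M s) B s t

/-- the vertices -/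
def vts (B : List Arc) (s t : ℕ) : List ℕ :=
  s :: t :: ((B.map fun a => a.1) ++ (B.map fun a => a.2.1))

/-- the bound -/
def capM (B : List Arc) (s t : ℕ) : ℕ :=
  1 + (vts B s t).length * (B.map fun a => a.2.2.1).sum

/-- the algorithm for labelled arcs, with all the parameters -/
def solveB (B : List Arc) (s t : ℕ) : Bool := coreb (vts B s t) (capM B s t) B s t

/-- the labelled arcs of a mixed graph with edges `E` and arcs `A` -/
def labB (E A : List (ℕ × ℕ × ℕ)) : List Arc :=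
  ((E ++ A).zipIdx.map fun p => (p.1.1, p.1.2.1, p.1.2.2, p.2, true)) ++
    E.zipIdx.map fun p => (p.1.2.1, p.1.1, p.1.2.2, p.2, false)

/-- the common denominator -/
def cden (l : List Arcq) : ℕ := (l.map fun a => a.2.2.den).prod

/-- scaling -/
def scal (N : ℕ) (a : Arcq) : ℕ × ℕ × ℕ := (a.1, a.2.1, a.2.2.num.natAbs * (N / a.2.2.den))

/-- test of nonnegativity -/
def nnb (l : List Arcq) : Bool := l.all fun a => !decide (a.2.2.num < 0)

/-- the algorithm -/
def solve (x : List Arcq × List Arcq × ℕ × ℕ) : Bool :=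
  nnb x.1 && (nnb x.2.1 &&
    solveB (labB (x.1.map (scal (cden (x.1 ++ x.2.1)))) (x.2.1.map (scal (cden (x.1 ++ x.2.1)))))
      x.2.2.1 x.2.2.2)

/-! ### running time -/

section poly

variable {α : Type} [TEnc α]

theorem poly_reachL {V : α → List ℕ} {L : α → List Arc} {x y : α → ℕ} (hV : NPC.Poly V)
    (hL : NPC.Poly L) (hx : NPC.Poly x) (hy : NPC.Poly y) :
    NPC.Poly (fun a => reachL (V a) (L a) (x a) (y a)) := by
  unfold reachL
  fun_prop

theorem poly_confb {x y : α → Arc} (hx : NPC.Poly x) (hy : NPC.Poly y) :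
    NPC.Poly (fun a => confb (x a) (y a)) := by
  unfold confb
  fun_prop

attribute [fun_prop] poly_reachL poly_confb
attribute [local irreducible] reachL confb reachG

theorem poly_bottb {V : α → List ℕ} {L : α → List Arc} {x x1 y1 y : α → ℕ} (hV : NPC.Poly V)
    (hL : NPC.Poly L) (hx : NPC.Poly x) (hx1 : NPC.Poly x1) (hy1 : NPC.Poly y1)
    (hy : NPC.Poly y) :
    NPC.Poly (fun a => bottb (V a) (L a) (x a) (x1 a) (y1 a) (y a)) := by
  unfold bottb
  fun_prop

theorem poly_val {M x : α → ℕ} {T : α → List (ℕ × ℕ)} (hM : NPC.Poly M) (hT : NPC.Poly T)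
    (hx : NPC.Poly x) : NPC.Poly (fun a => val (M a) (T a) (x a)) := by
  unfold val
  fun_prop

attribute [fun_prop] poly_bottb poly_val
attribute [local irreducible] bottb val

theorem poly_hb {M x : α → ℕ} {Tp Tq : α → List (ℕ × ℕ)} (hM : NPC.Poly M) (hp : NPC.Poly Tp)
    (hq : NPC.Poly Tq) (hx : NPC.Poly x) :
    NPC.Poly (fun a => hb (M a) (Tp a) (Tq a) (x a)) := by
  unfold hb
  fun_prop

theorem poly_ptl {M : α → ℕ} {T : α → List (ℕ × ℕ)} {B : α → List Arc} (hM : NPC.Poly M)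
    (hT : NPC.Poly T) (hB : NPC.Poly B) : NPC.Poly (fun a => ptl (M a) (T a) (B a)) := by
  unfold ptl
  fun_prop

theorem poly_qtl {M : α → ℕ} {T : α → List (ℕ × ℕ)} {B : α → List Arc} (hM : NPC.Poly M)
    (hT : NPC.Poly T) (hB : NPC.Poly B) : NPC.Poly (fun a => qtl (M a) (T a) (B a)) := by
  unfold qtl
  fun_prop

attribute [fun_prop] poly_hb poly_ptl poly_qtl
attribute [local irreducible] hb ptl qtl

theorem poly_step1 {M : α → ℕ} {Tp Tq : α → List (ℕ × ℕ)} {B : α → List Arc}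
    {z z' : α → ℕ × ℕ} (hM : NPC.Poly M) (hp : NPC.Poly Tp)
    (hq : NPC.Poly Tq) (hB : NPC.Poly B) (hz : NPC.Poly z) (hz' : NPC.Poly z') :
    NPC.Poly (fun a => step1 (M a) (Tp a) (Tq a) (B a) (z a) (z' a)) := by
  unfold step1
  fun_prop

theorem poly_step2 {M : α → ℕ} {Tp Tq : α → List (ℕ × ℕ)} {B : α → List Arc}
    {z z' : α → ℕ × ℕ} (hM : NPC.Poly M) (hp : NPC.Poly Tp)
    (hq : NPC.Poly Tq) (hB : NPC.Poly B) (hz : NPC.Poly z) (hz' : NPC.Poly z') :
    NPC.Poly (fun a => step2 (M a) (Tp a) (Tq a) (B a) (z a) (z' a)) := by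
  unfold step2
  fun_prop

theorem poly_pairb {V : α → List ℕ} {M : α → ℕ} {Tp Tq : α → List (ℕ × ℕ)} {L : α → List Arc}
    {z z' : α → ℕ × ℕ} {x y : α → Arc} (hV : NPC.Poly V) (hM : NPC.Poly M) (hp : NPC.Poly Tp)
    (hq : NPC.Poly Tq) (hL : NPC.Poly L) (hz : NPC.Poly z) (hz' : NPC.Poly z')
    (hx : NPC.Poly x) (hy : NPC.Poly y) :
    NPC.Poly (fun a => pairb (V a) (M a) (Tp a) (Tq a) (L a) (z a) (z' a) (x a) (y a)) := by
  unfold pairb
  fun_prop

attribute [fun_prop] poly_step1 poly_step2 poly_pairb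
attribute [local irreducible] step1 step2 pairb

theorem poly_step3 {V : α → List ℕ} {M : α → ℕ} {Tp Tq : α → List (ℕ × ℕ)} {B : α → List Arc}
    {z z' : α → ℕ × ℕ} (hV : NPC.Poly V) (hM : NPC.Poly M) (hp : NPC.Poly Tp)
    (hq : NPC.Poly Tq) (hB : NPC.Poly B) (hz : NPC.Poly z) (hz' : NPC.Poly z') :
    NPC.Poly (fun a => step3 (V a) (M a) (Tp a) (Tq a) (B a) (z a) (z' a)) := by
  unfold step3
  fun_prop

attribute [fun_prop] poly_step3
attribute [local irreducible] step3

theorem poly_stepb {V : α → List ℕ} {M : α → ℕ} {Tp Tq : α → List (ℕ × ℕ)} {B : α → List Arc}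
    {z z' : α → ℕ × ℕ} (hV : NPC.Poly V) (hM : NPC.Poly M) (hp : NPC.Poly Tp)
    (hq : NPC.Poly Tq) (hB : NPC.Poly B) (hz : NPC.Poly z) (hz' : NPC.Poly z') :
    NPC.Poly (fun a => stepb (V a) (M a) (Tp a) (Tq a) (B a) (z a) (z' a)) := by
  unfold stepb
  fun_prop

theorem poly_finalb {V : α → List ℕ} {M t : α → ℕ} {Tp Tq : α → List (ℕ × ℕ)}
    {B : α → List Arc} {z : α → ℕ × ℕ} (hV : NPC.Poly V) (hM : NPC.Poly M) (hp : NPC.Poly Tp)
    (hq : NPC.Poly Tq) (hB : NPC.Poly B) (ht : NPC.Poly t) (hz : NPC.Poly z) :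
    NPC.Poly (fun a => finalb (V a) (M a) (Tp a) (Tq a) (B a) (t a) (z a)) := by
  unfold finalb
  fun_prop

attribute [fun_prop] poly_stepb poly_finalb
attribute [local irreducible] stepb finalb

theorem poly_srch {V : α → List ℕ} {M s t : α → ℕ} {Tp Tq : α → List (ℕ × ℕ)}
    {B : α → List Arc} (hV : NPC.Poly V) (hM : NPC.Poly M) (hp : NPC.Poly Tp)
    (hq : NPC.Poly Tq) (hB : NPC.Poly B) (hs : NPC.Poly s) (ht : NPC.Poly t) :
    NPC.Poly (fun a => srch (V a) (M a) (Tp a) (Tq a) (B a) (s a) (t a)) := by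
  unfold srch
  fun_prop

attribute [fun_prop] poly_srch
attribute [local irreducible] srch

theorem poly_withT {V : α → List ℕ} {M s t : α → ℕ} {Tp Tq : α → List (ℕ × ℕ)}
    {B : α → List Arc} (hV : NPC.Poly V) (hM : NPC.Poly M) (hp : NPC.Poly Tp)
    (hq : NPC.Poly Tq) (hB : NPC.Poly B) (hs : NPC.Poly s) (ht : NPC.Poly t) :
    NPC.Poly (fun a => withT (V a) (M a) (Tp a) (Tq a) (B a) (s a) (t a)) := by
  unfold withT
  fun_prop

attribute [fun_prop] poly_withT
attribute [local irreducible] withT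

theorem poly_minL {l : α → List ℕ} (hl : NPC.Poly l) : NPC.Poly (fun a => minL (l a)) := by
  unfold minL
  fun_prop

attribute [fun_prop] poly_minL
attribute [local irreducible] minL

theorem poly_rnd {B : α → List Arc} {V : α → List ℕ} {M : α → ℕ} {T : α → List (ℕ × ℕ)}
    (hB : NPC.Poly B) (hV : NPC.Poly V) (hM : NPC.Poly M) (hT : NPC.Poly T) :
    NPC.Poly (fun a => rnd (B a) (V a) (M a) (T a)) := by
  unfold rnd
  fun_prop

attribute [fun_prop] poly_rnd

theorem minL_le {l : List ℕ} {c : ℕ} (hc : c ∈ l) : minL l ≤ c := by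
  unfold minL
  cases h : (l.filter fun c => l.all fun c' => decide (c ≤ c')).head? with
  | none => simp
  | some m =>
    have h1 : m ∈ l.filter fun c => l.all fun c' => decide (c ≤ c') := List.mem_of_mem_head? (by
      rw [h]; rfl)
    have h2 := (List.mem_filter.1 h1).2
    rw [List.all_eq_true] at h2
    simpa using h2 c hc

theorem val_le {M : ℕ} {T : List (ℕ × ℕ)} (hT : ∀ e ∈ T, e.2 ≤ M) (x : ℕ) : val M T x ≤ M := by
  unfold val
  cases h : (T.filter fun e => decide (e.1 = x)).head? with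
  | none => simp
  | some m =>
    have h1 : m ∈ T.filter fun e => decide (e.1 = x) := List.mem_of_mem_head? (by rw [h]; rfl)
    simpa using hT m (List.mem_filter.1 h1).1

theorem rnd_le {B : List Arc} {V : List ℕ} {M : ℕ} {T : List (ℕ × ℕ)} (hT : ∀ e ∈ T, e.2 ≤ M) :
    ∀ e ∈ rnd B V M T, e.2 ≤ M := by
  intro e he
  unfold rnd at he
  obtain ⟨x, _, rfl⟩ := List.mem_map.1 he
  exact (minL_le List.mem_cons_self).trans (val_le hT x)

theorem iter_form (B : List Arc) (V : List ℕ) (M s : ℕ) (k : ℕ) :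
    ∃ g : ℕ → ℕ, (∀ x, g x ≤ M) ∧
      (rnd B V M)^[k] (V.map fun x => (x, if x = s then 0 else M)) = V.map fun x => (x, g x) := by
  induction k with
  | zero =>
    refine ⟨fun x => if x = s then 0 else M, fun x => ?_, rfl⟩
    simp only
    split_ifs
    · exact Nat.zero_le _
    · exact le_rfl
  | succ k ih =>
    obtain ⟨g, hg, he⟩ := ih
    rw [Function.iterate_succ_apply', he]
    refine ⟨fun x => minL (val M (V.map fun x => (x, g x)) x ::
      (B.filter fun a => decide (a.2.1 = x)).map fun a =>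
        val M (V.map fun x => (x, g x)) a.1 + a.2.2.1), fun x => ?_, rfl⟩
    refine (minL_le List.mem_cons_self).trans (val_le (fun e he => ?_) x)
    obtain ⟨y, _, rfl⟩ := List.mem_map.1 he
    exact hg y

theorem poly_bf {B : α → List Arc} {V : α → List ℕ} {M s : α → ℕ} (hB : NPC.Poly B)
    (hV : NPC.Poly V) (hM : NPC.Poly M) (hs : NPC.Poly s) :
    NPC.Poly (fun a => bf (B a) (V a) (M a) (s a)) := by
  obtain ⟨qV, hqV⟩ := hV.sz_le
  obtain ⟨qM, hqM⟩ := hM.sz_le
  unfold bf
  refine NPC.Poly.iterLen (l := V) (s := fun a => (V a).map fun x => (x, if x = s a then 0 else M a))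
    (F := fun a T => rnd (B a) (V a) (M a) T) hV ?_ ?_
    (qV * (qV + Polynomial.C 2 * qM + Polynomial.C 3) + Polynomial.C 1) ?_
  · fun_prop
  · fun_prop
  · intro a k _
    obtain ⟨g, hg, he⟩ := iter_form (B a) (V a) (M a) (s a) k
    change sz ((rnd (B a) (V a) (M a))^[k] _) ≤ _
    rw [he]
    have h1 : ∀ e ∈ (V a).map (fun x => (x, g x)), sz e ≤ sz (V a) + 2 * sz (M a) + 1 := by
      intro e he
      obtain ⟨x, hx, rfl⟩ := List.mem_map.1 he
      have h2 : sz x < sz (V a) := sz_le_of_mem hx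
      have h3 := sz_nat_mono_le (hg x)
      rw [sz_pair]
      omega
    have h2 := sz_le_length_mul _ _ h1
    rw [List.length_map] at h2
    have h3 := length_lt_sz (V a)
    have h4 := hqV a
    have h5 := hqM a
    simp only [Polynomial.eval_add, Polynomial.eval_mul, Polynomial.eval_C]
    refine h2.trans ?_
    have h6 : (V a).length ≤ qV.eval (sz a) := by omega
    have h7 : sz (V a) + 2 * sz (M a) + 1 + 1 ≤ qV.eval (sz a) + 2 * qM.eval (sz a) + 3 := by omega
    have h8 := Nat.mul_le_mul h6 h7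
    omega

attribute [fun_prop] poly_bf
attribute [local irreducible] bf rnd

theorem poly_coreb {V : α → List ℕ} {M s t : α → ℕ} {B : α → List Arc} (hV : NPC.Poly V)
    (hM : NPC.Poly M) (hB : NPC.Poly B) (hs : NPC.Poly s) (ht : NPC.Poly t) :
    NPC.Poly (fun a => coreb (V a) (M a) (B a) (s a) (t a)) := by
  unfold coreb revA
  fun_prop

attribute [fun_prop] poly_coreb
attribute [local irreducible] coreb

theorem poly_vts {B : α → List Arc} {s t : α → ℕ} (hB : NPC.Poly B) (hs : NPC.Poly s)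
    (ht : NPC.Poly t) : NPC.Poly (fun a => vts (B a) (s a) (t a)) := by
  unfold vts
  fun_prop

attribute [fun_prop] poly_vts
attribute [local irreducible] vts

theorem poly_capM {B : α → List Arc} {s t : α → ℕ} (hB : NPC.Poly B) (hs : NPC.Poly s)
    (ht : NPC.Poly t) : NPC.Poly (fun a => capM (B a) (s a) (t a)) := by
  unfold capM
  fun_prop

attribute [fun_prop] poly_capM
attribute [local irreducible] capM

theorem poly_solveB {B : α → List Arc} {s t : α → ℕ} (hB : NPC.Poly B) (hs : NPC.Poly s)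
    (ht : NPC.Poly t) : NPC.Poly (fun a => solveB (B a) (s a) (t a)) := by
  unfold solveB
  fun_prop

theorem poly_labB {E A : α → List (ℕ × ℕ × ℕ)} (hE : NPC.Poly E) (hA : NPC.Poly A) :
    NPC.Poly (fun a => labB (E a) (A a)) := by
  unfold labB
  fun_prop

attribute [fun_prop] poly_solveB poly_labB
attribute [local irreducible] solveB labB

theorem poly_num {f : α → ℚ} (hf : NPC.Poly f) : NPC.Poly (fun a => (f a).num) := by
  have h : NPC.Poly (fun a => (((f a).num, (f a).den) : ℤ × ℕ)) := hf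
  exact NPC.Poly.fst h

theorem poly_den {f : α → ℚ} (hf : NPC.Poly f) : NPC.Poly (fun a => (f a).den) := by
  have h : NPC.Poly (fun a => (((f a).num, (f a).den) : ℤ × ℕ)) := hf
  exact NPC.Poly.snd h

theorem poly_natAbs {f : α → ℤ} (hf : NPC.Poly f) : NPC.Poly (fun a => (f a).natAbs) := by
  have h : NPC.Poly (fun a => ((decide (f a < 0), (f a).natAbs) : Bool × ℕ)) := hf
  exact NPC.Poly.snd h

theorem poly_neg {f : α → ℤ} (hf : NPC.Poly f) : NPC.Poly (fun a => decide (f a < 0)) := by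
  have h : NPC.Poly (fun a => ((decide (f a < 0), (f a).natAbs) : Bool × ℕ)) := hf
  exact NPC.Poly.fst h

attribute [fun_prop] poly_num poly_den poly_natAbs poly_neg

theorem poly_cden {l : α → List Arcq} (hl : NPC.Poly l) : NPC.Poly (fun a => cden (l a)) := by
  unfold cden
  fun_prop

theorem poly_scal {N : α → ℕ} {x : α → Arcq} (hN : NPC.Poly N) (hx : NPC.Poly x) :
    NPC.Poly (fun a => scal (N a) (x a)) := by
  unfold scal
  fun_prop

theorem poly_nnb {l : α → List Arcq} (hl : NPC.Poly l) : NPC.Poly (fun a => nnb (l a)) := by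
  unfold nnb
  fun_prop

attribute [fun_prop] poly_cden poly_scal poly_nnb
attribute [local irreducible] cden scal nnb

theorem poly_solve : NPC.Poly solve := by
  unfold solve
  fun_prop

end poly

end Pool.Agent.R547.MO
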