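import Mathlib

/-!
# Orientations of mixed graphs preserving two distances: definitions (MP_bc7fec_lc)

Problem level: `Arcq`, `dist`, `orient`, `MixOri` (rational lengths).
Core level: labelled arcs with natural lengths, walks, tight walks, levels.
-/

set_option autoImplicit false

namespace Pool.Agent.R547.MO

/-! ### the problem -/

/-- an arc (or an edge): the two end vertices and the length -/
abbrev Arcq := ℕ × ℕ × ℚ

/-- `l` is a directed walk from `x` to `y`, given by its arcs (source, target, length), all of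
which belong to `D`. -/
def IsWalkq (D : List Arcq) : ℕ → ℕ → List Arcq → Prop
  | x, y, [] => x = y
  | x, y, a :: l => a ∈ D ∧ a.1 = x ∧ IsWalkq D a.2.1 y l

/-- the length of a walk -/
def lenq (l : List Arcq) : ℚ := (l.map fun a => a.2.2).sum

/-- The distance from `x` to `y` in the directed graph with the arcs `D`: the least length of a
directed walk from `x` to `y`, and `+∞` if there is none. -/
noncomputable def dist (D : List Arcq) (x y : ℕ) : EReal :=
  ⨅ l : {l : List Arcq // IsWalkq D x y l}, ((lenq l.1 : ℝ) : EReal)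

/-- the reversal of an arc -/
def flip (e : Arcq) : Arcq := (e.2.1, e.1, e.2.2)

/-- The orientation of the edges `E` given by `σ`: the edge number `i` is kept if `σ i` is `true`
and reversed otherwise. -/
def orient (E : List Arcq) (σ : Fin E.length → Bool) : List Arcq :=
  List.ofFn fun i => if σ i = true then E.get i else flip (E.get i)

/-- The decision problem. An instance consists of the list `E` of the edges, the list `A` of the
arcs (all with lengths) and the vertices `s`, `t`. The question is whether the lengths are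
nonnegative and some orientation preserves the distances from `s` to `t` and from `t` to `s`. -/
def MixOri (x : List Arcq × List Arcq × ℕ × ℕ) : Prop :=
  (∀ e ∈ x.1, 0 ≤ e.2.2) ∧ (∀ a ∈ x.2.1, 0 ≤ a.2.2) ∧
    ∃ σ : Fin x.1.length → Bool,
      dist (orient x.1 σ ++ x.2.1) x.2.2.1 x.2.2.2 =
        dist ((x.1 ++ x.1.map flip) ++ x.2.1) x.2.2.1 x.2.2.2 ∧
      dist (orient x.1 σ ++ x.2.1) x.2.2.2 x.2.2.1 =
        dist ((x.1 ++ x.1.map flip) ++ x.2.1) x.2.2.2 x.2.2.1

/-! ### labelled arcs with natural lengths -/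

/-- a labelled arc: source, target, length, number of the edge, direction -/
abbrev Arc := ℕ × ℕ × ℕ × ℕ × Bool

/-- source -/
abbrev src (a : Arc) : ℕ := a.1
/-- target -/
abbrev tgt (a : Arc) : ℕ := a.2.1
/-- length -/
abbrev len (a : Arc) : ℕ := a.2.2.1
/-- number of the edge -/
abbrev idx (a : Arc) : ℕ := a.2.2.2.1
/-- direction -/
abbrev dir (a : Arc) : Bool := a.2.2.2.2

/-- the list of arcs is a walk from `x` to `y` -/
def IsWalk : ℕ → ℕ → List Arc → Prop
  | x, y, [] => x = y
  | x, y, a :: l => src a = x ∧ IsWalk (tgt a) y l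

/-- two arcs which use the same edge in opposite directions -/
def conf (a b : Arc) : Prop := idx a = idx b ∧ dir a ≠ dir b

/-- there is a walk from `x` to `y` with all arcs in `L` -/
def Reach (L : Arc → Prop) (x y : ℕ) : Prop := ∃ P, IsWalk x y P ∧ ∀ a ∈ P, L a

/-- the labels are consistent -/
structure Lab (L : Arc → Prop) : Prop where
  rev : ∀ a b, L a → L b → conf a b → src b = tgt a ∧ tgt b = src a
  det : ∀ a b, L a → L b → idx a = idx b → dir a = dir b → a = b

/-- two walks without conflicts inside `L` -/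
def Two (L : Arc → Prop) (x x1 y1 y : ℕ) : Prop :=
  ∃ P Q, IsWalk x x1 P ∧ IsWalk y1 y Q ∧ (∀ a ∈ P, L a) ∧ (∀ b ∈ Q, L b) ∧
    ∀ a ∈ P, ∀ b ∈ Q, ¬ conf a b

/-- the bottleneck criterion -/
def Bott (L : Arc → Prop) (x x1 y1 y : ℕ) : Prop :=
  Reach L x x1 ∧
    Reach (fun b => L b ∧ ∀ a, L a → ¬ Reach (fun c => L c ∧ c ≠ a) x x1 → ¬ conf a b) y1 y

/-- Piece AH: the bottleneck criterion is correct. -/
def AHStmt : Prop := ∀ (L : Arc → Prop) (x x1 y1 y : ℕ), Lab L → (Two L x x1 y1 y ↔ Bott L x x1 y1 y)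

/-- Piece SIMP: a walk contains a simple walk. -/
def SimpStmt : Prop := ∀ (P : List Arc) (x y : ℕ), IsWalk x y P →
  ∃ P', P'.Sublist P ∧ IsWalk x y P' ∧ (P'.map src).Nodup ∧ y ∉ P'.map src

/-- Piece CONS: a simple walk does not use an edge twice. -/
def ConsStmt : Prop := ∀ (L : Arc → Prop) (P : List Arc) (x y : ℕ), Lab L → IsWalk x y P →
  (∀ a ∈ P, L a) → (P.map src).Nodup → y ∉ P.map src → ∀ a ∈ P, ∀ b ∈ P, ¬ conf a b

/-! ### tight walks and levels -/

section levels

variable (B : Arc → Prop) (p q : ℕ → ℕ) (t : ℕ)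

/-- arcs tight for `p` -/
def PT (a : Arc) : Prop := B a ∧ p (tgt a) = p (src a) + len a

/-- arcs tight for `q` -/
def QT (a : Arc) : Prop := B a ∧ q (src a) = q (tgt a) + len a

/-- the level of a vertex -/
def lev (v : ℕ) : ℕ := p v + q v

/-- arcs inside a level -/
def Lv (a : Arc) : Prop := PT B p a ∧ QT B q a

/-- there are a `p`-tight walk from `x` to `t` and a `q`-tight walk from `t` to `y` without
conflicts -/
def Good (z : ℕ × ℕ) : Prop :=
  ∃ P Q, IsWalk z.1 t P ∧ IsWalk t z.2 Q ∧ (∀ a ∈ P, PT B p a) ∧ (∀ b ∈ Q, QT B q b) ∧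
    ∀ a ∈ P, ∀ b ∈ Q, ¬ conf a b

/-- the moves -/
def Step (z z' : ℕ × ℕ) : Prop :=
  (lev p q z.1 < lev p q z.2 ∧ z'.2 = z.2 ∧ ∃ a, PT B p a ∧ src a = z.1 ∧ tgt a = z'.1) ∨
  (lev p q z.2 < lev p q z.1 ∧ z'.1 = z.1 ∧ ∃ b, QT B q b ∧ tgt b = z.2 ∧ src b = z'.2) ∨
  (lev p q z.1 = lev p q z.2 ∧ ∃ a b, PT B p a ∧ QT B q b ∧
    lev p q (src a) = lev p q z.1 ∧ lev p q (src a) < lev p q (tgt a) ∧
    lev p q (tgt b) = lev p q z.1 ∧ lev p q (tgt b) < lev p q (src b) ∧ ¬ conf a b ∧
    Two (Lv B p q) z.1 (src a) (tgt b) z.2 ∧ tgt a = z'.1 ∧ src b = z'.2)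

/-- the accepting states -/
def Final (z : ℕ × ℕ) : Prop := lev p q z.1 = lev p q z.2 ∧ Two (Lv B p q) z.1 t t z.2

/-- the potentials are feasible -/
structure Pot : Prop where
  hp : ∀ a, B a → p (tgt a) ≤ p (src a) + len a
  hq : ∀ a, B a → q (src a) ≤ q (tgt a) + len a

end levels

/-- Piece LEV: the levels. -/
def LevStmt : Prop := ∀ (B : Arc → Prop) (p q : ℕ → ℕ) (t : ℕ), Lab B → Pot B p q → ∀ z,
  (Good B p q t z ↔ ∃ z', Relation.ReflTransGen (Step B p q) z z' ∧ Final B p q t z')

/-! ### shortest distances by iteration -/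

/-- the least element of a nonempty list -/
def minL (l : List ℕ) : ℕ := ((l.filter fun c => l.all fun c' => decide (c ≤ c')).head?).getD 0

/-- the value of `x` in a table, `M` if there is none -/
def val (M : ℕ) (T : List (ℕ × ℕ)) (x : ℕ) : ℕ :=
  (((T.filter fun e => decide (e.1 = x)).head?).map fun e => e.2).getD M

/-- one round -/
def rnd (B : List Arc) (V : List ℕ) (M : ℕ) (T : List (ℕ × ℕ)) : List (ℕ × ℕ) :=
  V.map fun x => (x, minL (val M T x ::
    (B.filter fun a => decide (a.2.1 = x)).map fun a => val M T a.1 + a.2.2.1))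

/-- the table of the distances from `s` -/
def bf (B : List Arc) (V : List ℕ) (M s : ℕ) : List (ℕ × ℕ) :=
  (rnd B V M)^[V.length] (V.map fun x => (x, if x = s then 0 else M))

/-- the total length of a walk -/
def tot (P : List Arc) : ℕ := (P.map fun a => a.2.2.1).sum

/-- Piece BF: the table contains the distances, capped by `M`. -/
def BFStmt : Prop := ∀ (B : List Arc) (V : List ℕ) (M s : ℕ), s ∈ V → (∀ a ∈ B, src a ∈ V) →
  (∀ a ∈ B, tgt a ∈ V) → M = 1 + V.length * (B.map fun a => a.2.2.1).sum →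
  (val M (bf B V M s) s = 0 ∧
    (∀ a ∈ B, val M (bf B V M s) (tgt a) ≤ val M (bf B V M s) (src a) + len a) ∧
    (∀ x, val M (bf B V M s) x < M → ∃ P, IsWalk s x P ∧ (∀ a ∈ P, a ∈ B) ∧
      tot P = val M (bf B V M s) x) ∧
    (∀ x P, IsWalk s x P → (∀ a ∈ P, a ∈ B) → val M (bf B V M s) x < M))

end Pool.Agent.R547.MO
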