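import Mathlib
import Pool.Agent.R547.MO.Defs

/-!
# Piece MO-BF: the table of the distances (MP_bc7fec_lc)
-/

set_option autoImplicit false

namespace Pool.Agent.R547.MO

theorem walk_snoc {x y : ℕ} {P : List Arc} {a : Arc} (h : IsWalk x y P) (ha : src a = y) :
    IsWalk x (tgt a) (P ++ [a]) := by
  induction P generalizing x with
  | nil =>
    have h' : x = y := h
    show src a = x ∧ tgt a = tgt a
    exact ⟨ha.trans h'.symm, rfl⟩
  | cons b P ih =>
    obtain ⟨h1, h2⟩ : src b = x ∧ IsWalk (tgt b) y P := h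
    exact ⟨h1, ih h2⟩

theorem walk_snoc_inv {x z : ℕ} {P : List Arc} {a : Arc} (h : IsWalk x z (P ++ [a])) :
    IsWalk x (src a) P ∧ tgt a = z := by
  induction P generalizing x with
  | nil =>
    obtain ⟨h1, h2⟩ : src a = x ∧ tgt a = z := h
    exact ⟨h1.symm, h2⟩
  | cons b P ih =>
    obtain ⟨h1, h2⟩ : src b = x ∧ IsWalk (tgt b) z (P ++ [a]) := h
    obtain ⟨h3, h4⟩ := ih h2
    exact ⟨⟨h1, h3⟩, h4⟩

theorem tot_snoc (P : List Arc) (a : Arc) : tot (P ++ [a]) = tot P + len a := by
  simp [tot]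

theorem minL_spec (l : List ℕ) (hl : l ≠ []) : minL l ∈ l ∧ ∀ c ∈ l, minL l ≤ c := by
  have hex : ∃ c ∈ l, ∀ c' ∈ l, c ≤ c' := by
    obtain ⟨c, hc, hmin⟩ := Finset.exists_min_image l.toFinset id
      ⟨l.head hl, List.mem_toFinset.mpr (List.head_mem hl)⟩
    exact ⟨c, List.mem_toFinset.mp hc, fun c' hc' => hmin c' (List.mem_toFinset.mpr hc')⟩
  obtain ⟨c, hc, hmin⟩ := hex
  have hne : c ∈ l.filter fun c => l.all fun c' => decide (c ≤ c') := by
    rw [List.mem_filter]
    refine ⟨hc, ?_⟩
    rw [List.all_eq_true]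
    intro c' hc'
    exact decide_eq_true (hmin c' hc')
  obtain ⟨c0, hc0⟩ : ∃ c0, (l.filter fun c => l.all fun c' => decide (c ≤ c')).head? = some c0 := by
    cases h : (l.filter fun c => l.all fun c' => decide (c ≤ c')).head? with
    | none =>
      rw [List.head?_eq_none_iff] at h
      rw [h] at hne
      simp at hne
    | some c0 => exact ⟨c0, rfl⟩
  have h1 : minL l = c0 := by
    unfold minL
    rw [hc0]
    rfl
  have h2 : c0 ∈ l.filter fun c => l.all fun c' => decide (c ≤ c') := List.mem_of_mem_head? hc0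
  rw [List.mem_filter, List.all_eq_true] at h2
  rw [h1]
  exact ⟨h2.1, fun c' hc' => of_decide_eq_true (h2.2 c' hc')⟩

theorem val_cons (M : ℕ) (e : ℕ × ℕ) (T : List (ℕ × ℕ)) (x : ℕ) :
    val M (e :: T) x = if e.1 = x then e.2 else val M T x := by
  unfold val
  rw [List.filter_cons]
  by_cases h : e.1 = x
  · simp [h]
  · simp [h]

theorem val_map_mem (M : ℕ) (g : ℕ → ℕ) (x : ℕ) : ∀ V : List ℕ, x ∈ V →
    val M (V.map fun x => (x, g x)) x = g x := by
  intro V
  induction V with
  | nil => intro h; simp at h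
  | cons y V ih =>
    intro h
    rw [List.map_cons, val_cons]
    by_cases hy : y = x
    · simp [hy]
    · rw [if_neg hy]
      exact ih ((List.mem_cons.mp h).resolve_left (fun h' => hy h'.symm))

theorem val_map_not_mem (M : ℕ) (g : ℕ → ℕ) (x : ℕ) : ∀ V : List ℕ, x ∉ V →
    val M (V.map fun x => (x, g x)) x = M := by
  intro V
  induction V with
  | nil => intro _; rfl
  | cons y V ih =>
    intro h
    rw [List.mem_cons, not_or] at h
    rw [List.map_cons, val_cons, if_neg (fun h' => h.1 h'.symm)]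
    exact ih h.2

section

variable (B : List Arc) (V : List ℕ) (M s : ℕ)

/-- the `k`-th table -/
def tab (k : ℕ) : List (ℕ × ℕ) := (rnd B V M)^[k] (V.map fun x => (x, if x = s then 0 else M))

/-- the `k`-th distance -/
def DD (k x : ℕ) : ℕ := val M (tab B V M s k) x

theorem tab_succ (k : ℕ) : tab B V M s (k + 1) = rnd B V M (tab B V M s k) :=
  Function.iterate_succ_apply' _ _ _

theorem val_rnd (T : List (ℕ × ℕ)) {x : ℕ} (hx : x ∈ V) : val M (rnd B V M T) x =
    minL (val M T x :: (B.filter fun a => decide (a.2.1 = x)).map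
      fun a => val M T a.1 + a.2.2.1) := by
  unfold rnd
  rw [val_map_mem M (fun x => minL (val M T x ::
    (B.filter fun a => decide (a.2.1 = x)).map fun a => val M T a.1 + a.2.2.1)) x V hx]

theorem val_rnd_not_mem (T : List (ℕ × ℕ)) {x : ℕ} (hx : x ∉ V) : val M (rnd B V M T) x = M := by
  unfold rnd
  rw [val_map_not_mem M (fun x => minL (val M T x ::
    (B.filter fun a => decide (a.2.1 = x)).map fun a => val M T a.1 + a.2.2.1)) x V hx]

theorem DD_zero (hs : s ∈ V) (x : ℕ) : DD B V M s 0 x = if x = s then 0 else M := by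
  show val M (V.map fun x => (x, if x = s then 0 else M)) x = _
  by_cases hx : x ∈ V
  · rw [val_map_mem M (fun x => if x = s then 0 else M) x V hx]
  · rw [val_map_not_mem M (fun x => if x = s then 0 else M) x V hx, if_neg]
    rintro rfl
    exact hx hs

theorem DD_succ {k x : ℕ} (hx : x ∈ V) : DD B V M s (k + 1) x =
    minL (DD B V M s k x :: (B.filter fun a => decide (a.2.1 = x)).map
      fun a => DD B V M s k a.1 + a.2.2.1) := by
  unfold DD
  rw [tab_succ, val_rnd B V M _ hx]

theorem DD_not_mem {k x : ℕ} (hx : x ∉ V) : DD B V M s k x = M := by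
  cases k with
  | zero => exact val_map_not_mem M (fun x => if x = s then 0 else M) x V hx
  | succ k =>
    unfold DD
    rw [tab_succ, val_rnd_not_mem B V M _ hx]

theorem DD_anti (k x : ℕ) : DD B V M s (k + 1) x ≤ DD B V M s k x := by
  by_cases hx : x ∈ V
  · rw [DD_succ B V M s hx]
    exact (minL_spec _ (by simp)).2 _ (by simp)
  · rw [DD_not_mem B V M s hx, DD_not_mem B V M s hx]

theorem DD_le (hs : s ∈ V) (k x : ℕ) : DD B V M s k x ≤ M := by
  induction k with
  | zero =>
    rw [DD_zero B V M s hs]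
    split_ifs <;> omega
  | succ k ih => exact (DD_anti B V M s k x).trans ih

theorem DD_s (hs : s ∈ V) (k : ℕ) : DD B V M s k s = 0 := by
  induction k with
  | zero => rw [DD_zero B V M s hs, if_pos rfl]
  | succ k ih => exact Nat.le_zero.mp (ih ▸ DD_anti B V M s k s)

theorem DD_arc (hT : ∀ a ∈ B, tgt a ∈ V) (k : ℕ) (a : Arc) (ha : a ∈ B) :
    DD B V M s (k + 1) (tgt a) ≤ DD B V M s k (src a) + len a := by
  rw [DD_succ B V M s (hT a ha)]
  refine (minL_spec _ (by simp)).2 _ ?_
  refine List.mem_cons_of_mem _ (List.mem_map.mpr ⟨a, ?_, rfl⟩)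
  rw [List.mem_filter]
  exact ⟨ha, by simp⟩

theorem DD_walk (hs : s ∈ V) (k : ℕ) : ∀ x, DD B V M s k x < M →
    ∃ P, IsWalk s x P ∧ (∀ a ∈ P, a ∈ B) ∧ tot P = DD B V M s k x := by
  induction k with
  | zero =>
    intro x hx
    rw [DD_zero B V M s hs] at hx ⊢
    by_cases h : x = s
    · refine ⟨[], h.symm, by simp, ?_⟩
      rw [if_pos h]; rfl
    · rw [if_neg h] at hx
      exact absurd hx (lt_irrefl _)
  | succ k ih =>
    intro x hx
    by_cases hV : x ∈ V
    · have h1 := DD_succ B V M s (k := k) hV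
      have h2 := (minL_spec (DD B V M s k x :: (B.filter fun a => decide (a.2.1 = x)).map
        fun a => DD B V M s k a.1 + a.2.2.1) (by simp)).1
      rw [← h1] at h2
      rcases List.mem_cons.mp h2 with h3 | h3
      · obtain ⟨P, hP1, hP2, hP3⟩ := ih x (h3 ▸ hx)
        exact ⟨P, hP1, hP2, by rw [hP3, h3]⟩
      · obtain ⟨a, ha, hae⟩ := List.mem_map.mp h3
        rw [List.mem_filter] at ha
        obtain ⟨haB, hat⟩ := ha
        have hat' : a.2.1 = x := of_decide_eq_true hat
        have hlt : DD B V M s k a.1 < M := by omega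
        obtain ⟨P, hP1, hP2, hP3⟩ := ih a.1 hlt
        refine ⟨P ++ [a], ?_, ?_, ?_⟩
        · rw [← hat']
          exact walk_snoc hP1 rfl
        · intro b hb
          rcases List.mem_append.mp hb with hb | hb
          · exact hP2 b hb
          · rw [List.mem_singleton.mp hb]; exact haB
        · rw [tot_snoc, hP3]
          exact hae
    · rw [DD_not_mem B V M s hV] at hx
      exact absurd hx (lt_irrefl _)

theorem DD_le_tot (hs : s ∈ V) (hT : ∀ a ∈ B, tgt a ∈ V) (k : ℕ) :
    ∀ (P : List Arc) (x : ℕ), P.length ≤ k → IsWalk s x P → (∀ a ∈ P, a ∈ B) →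
      DD B V M s k x ≤ tot P := by
  induction k with
  | zero =>
    intro P x hP hW _
    have : P = [] := List.length_eq_zero_iff.mp (Nat.le_zero.mp hP)
    subst this
    have hx : s = x := hW
    rw [← hx, DD_s B V M s hs]
    exact Nat.zero_le _
  | succ k ih =>
    intro P x hP hW hB
    rcases List.eq_nil_or_concat P with rfl | ⟨P', a, rfl⟩
    · have hx : s = x := hW
      rw [← hx, DD_s B V M s hs]
      exact Nat.zero_le _
    · rw [List.concat_eq_append] at hP hW hB ⊢
      obtain ⟨h1, h2⟩ := walk_snoc_inv hW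
      have h3 : P'.length ≤ k := by simpa using hP
      have h4 := ih P' (src a) h3 h1 (fun b hb => hB b (List.mem_append_left _ hb))
      have h5 := DD_arc B V M s hT k a (hB a (by simp))
      rw [tot_snoc, ← h2]
      omega

end

theorem short (hS : SimpStmt) (B : List Arc) (V : List ℕ) (hV : ∀ a ∈ B, src a ∈ V) (s x : ℕ)
    (P : List Arc) (hP : IsWalk s x P) (hB : ∀ a ∈ P, a ∈ B) :
    ∃ P', IsWalk s x P' ∧ (∀ a ∈ P', a ∈ B) ∧ P'.length ≤ V.length ∧ tot P' ≤ tot P ∧
      tot P' < 1 + V.length * (B.map fun a => a.2.2.1).sum := by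
  obtain ⟨P', hsub, hW, hnd, _⟩ := hS P s x hP
  have hB' : ∀ a ∈ P', a ∈ B := fun a ha => hB a (hsub.subset ha)
  have hlen : P'.length ≤ V.length := by
    have h1 : (P'.map src).Subperm V := by
      refine hnd.subperm ?_
      intro y hy
      obtain ⟨a, ha, rfl⟩ := List.mem_map.mp hy
      exact hV a (hB' a ha)
    have h2 := h1.length_le
    rwa [List.length_map] at h2
  refine ⟨P', hW, hB', hlen, ?_, ?_⟩
  · exact (hsub.map _).sum_le_sum (by simp)
  · have h1 : tot P' ≤ (P'.map fun a => a.2.2.1).length • (B.map fun a => a.2.2.1).sum := by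
      refine List.sum_le_card_nsmul _ _ ?_
      intro c hc
      obtain ⟨a, ha, rfl⟩ := List.mem_map.mp hc
      exact List.single_le_sum (by simp) _ (List.mem_map.mpr ⟨a, hB' a ha, rfl⟩)
    rw [List.length_map, smul_eq_mul] at h1
    have h2 : P'.length * (B.map fun a => a.2.2.1).sum ≤
        V.length * (B.map fun a => a.2.2.1).sum := Nat.mul_le_mul_right _ hlen
    omega

theorem bf_correct_of (hS : SimpStmt) : BFStmt := by
  intro B V M s hs hV hT hM
  have hbf : ∀ x, val M (bf B V M s) x = DD B V M s V.length x := fun x => rfl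
  simp only [hbf]
  refine ⟨DD_s B V M s hs _, ?_, fun x => DD_walk B V M s hs _ x, ?_⟩
  · intro a ha
    rcases (DD_le B V M s hs V.length (src a)).lt_or_eq with h | h
    · obtain ⟨P, hP1, hP2, hP3⟩ := DD_walk B V M s hs _ _ h
      obtain ⟨P', hP1', hP2', hP3', hP4', _⟩ := short hS B V hV s (tgt a) (P ++ [a])
        (walk_snoc hP1 rfl) (by
          intro b hb
          rcases List.mem_append.mp hb with hb | hb
          · exact hP2 b hb
          · rw [List.mem_singleton.mp hb]; exact ha)
      have h1 := DD_le_tot B V M s hs hT V.length P' (tgt a) hP3' hP1' hP2'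
      rw [tot_snoc, hP3] at hP4'
      exact h1.trans hP4'
    · rw [h]
      exact (DD_le B V M s hs V.length (tgt a)).trans (Nat.le_add_right _ _)
  · intro x P hP1 hP2
    obtain ⟨P', hP1', hP2', hP3', _, hP5'⟩ := short hS B V hV s x P hP1 hP2
    have h1 := DD_le_tot B V M s hs hT V.length P' x hP3' hP1' hP2'
    rw [← hM] at hP5'
    exact h1.trans_lt hP5'

end Pool.Agent.R547.MO
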