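import Pool.Agent.R547.MO.Ori

/-!
# The final assembly
-/

set_option autoImplicit false

namespace Pool.Agent.R547.MO

open Pool.Agent.NPC

theorem revA_revA (a : Arc) : revA (revA a) = a := rfl

theorem isWalk_rev : ∀ {P : List Arc} {x y : ℕ}, IsWalk x y P → IsWalk y x (P.map revA).reverse
  | [], x, y, h => by
    have : x = y := h
    subst this
    exact rfl
  | a :: P, x, y, h => by
    obtain ⟨h1, h2⟩ := h
    rw [List.map_cons, List.reverse_cons]
    exact isWalk_append.2 ⟨tgt a, isWalk_rev h2, rfl, h1⟩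

theorem tot_rev (P : List Arc) : tot (P.map revA).reverse = tot P := by
  unfold tot
  rw [List.map_reverse, List.sum_reverse, List.map_map]
  rfl

theorem mem_rev {B : List Arc} {P : List Arc} (h : ∀ a ∈ P, a ∈ B.map revA) :
    ∀ a ∈ (P.map revA).reverse, a ∈ B := by
  intro a ha
  rw [List.mem_reverse, List.mem_map] at ha
  obtain ⟨b, hb, rfl⟩ := ha
  obtain ⟨c, hc, rfl⟩ := List.mem_map.1 (h b hb)
  exact hc

theorem mem_rev' {B : List Arc} {P : List Arc} (h : ∀ a ∈ P, a ∈ B) :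
    ∀ a ∈ (P.map revA).reverse, a ∈ B.map revA := by
  intro a ha
  rw [List.mem_reverse, List.mem_map] at ha
  obtain ⟨b, hb, rfl⟩ := ha
  exact List.mem_map_of_mem (h b hb)

theorem solveB_iff (hAH : AHStmt) (hLev : LevStmt) (hS : SimpStmt) (hC : ConsStmt)
    (hBF : BFStmt) {B : List Arc} {n s t : ℕ} (hlab : Lab fun a => a ∈ B)
    (hn : ∀ a ∈ B, n ≤ idx a → dir a = true) :
    solveB B s t = true ↔ ∃ σ : Fin n → Bool,
      Pres (fun a => a ∈ B) n σ s t ∧ Pres (fun a => a ∈ B) n σ t s := by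
  have hsV : s ∈ vts B s t := List.mem_cons_self
  have htV : t ∈ vts B s t := List.mem_cons_of_mem _ List.mem_cons_self
  have hsrc : ∀ a ∈ B, src a ∈ vts B s t := fun a ha =>
    List.mem_cons_of_mem _ (List.mem_cons_of_mem _ (List.mem_append_left _
      (List.mem_map_of_mem (f := fun a : Arc => a.1) ha)))
  have htgt : ∀ a ∈ B, tgt a ∈ vts B s t := fun a ha =>
    List.mem_cons_of_mem _ (List.mem_cons_of_mem _ (List.mem_append_right _
      (List.mem_map_of_mem (f := fun a : Arc => a.2.1) ha)))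
  have hM' : capM B s t = 1 + (vts B s t).length * ((B.map revA).map fun a => a.2.2.1).sum := by
    rw [List.map_map]
    rfl
  obtain ⟨p1, p2, p3, p4⟩ := hBF B (vts B s t) (capM B s t) s hsV hsrc htgt rfl
  obtain ⟨q1, q2, q3, q4⟩ := hBF (B.map revA) (vts B s t) (capM B s t) s hsV
    (by
      intro a ha
      obtain ⟨b, hb, rfl⟩ := List.mem_map.1 ha
      exact htgt b hb)
    (by
      intro a ha
      obtain ⟨b, hb, rfl⟩ := List.mem_map.1 ha
      exact hsrc b hb) hM'
  unfold solveB coreb withT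
  set V := vts B s t
  set M := capM B s t
  set Tp := bf B V M s
  set Tq := bf (B.map revA) V M s
  have hpot : Pot (fun a => a ∈ B) (val M Tp) (val M Tq) :=
    ⟨fun a ha => p2 a ha, fun a ha => q2 (revA a) (List.mem_map_of_mem ha)⟩
  rw [Bool.or_eq_true, Bool.or_eq_true, decide_eq_true_eq, decide_eq_true_eq,
    srch_iff hAH hLev hlab hsrc htgt hsV htV hpot]
  refine (ori_iff hS hC hlab hn hpot p1 q1 (p3 t) (p4 t) ?_ ?_).symm
  · intro h
    obtain ⟨P, hP, hPB, hPt⟩ := q3 t h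
    exact ⟨(P.map revA).reverse, isWalk_rev hP, mem_rev hPB, by rw [tot_rev]; exact hPt⟩
  · intro Q hQ hQB
    exact q4 t _ (isWalk_rev hQ) (mem_rev' hQB)

/-! ### labelled arcs of a mixed graph -/

theorem mem_labB {E A : List (ℕ × ℕ × ℕ)} {a : Arc} : a ∈ labB E A ↔
    (∃ i e, (E ++ A)[i]? = some e ∧ a = (e.1, e.2.1, e.2.2, i, true)) ∨
    (∃ i e, E[i]? = some e ∧ a = (e.2.1, e.1, e.2.2, i, false)) := by
  unfold labB
  rw [List.mem_append, List.mem_map, List.mem_map]
  refine or_congr ?_ ?_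
  · constructor
    · rintro ⟨⟨e, i⟩, h, rfl⟩
      exact ⟨i, e, List.mem_zipIdx_iff_getElem?.1 h, rfl⟩
    · rintro ⟨i, e, h, rfl⟩
      exact ⟨(e, i), List.mem_zipIdx_iff_getElem?.2 h, rfl⟩
  · constructor
    · rintro ⟨⟨e, i⟩, h, rfl⟩
      exact ⟨i, e, List.mem_zipIdx_iff_getElem?.1 h, rfl⟩
    · rintro ⟨i, e, h, rfl⟩
      exact ⟨(e, i), List.mem_zipIdx_iff_getElem?.2 h, rfl⟩

theorem app_get {E A : List (ℕ × ℕ × ℕ)} {i : ℕ} {e e' : ℕ × ℕ × ℕ}
    (h : (E ++ A)[i]? = some e) (h' : E[i]? = some e') : e = e' := by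
  have hi : i < E.length := (List.getElem?_eq_some_iff.1 h').1
  rw [List.getElem?_append_left hi, h'] at h
  exact (Option.some.inj h).symm

theorem lab_labB (E A : List (ℕ × ℕ × ℕ)) : Lab fun a => a ∈ labB E A := by
  constructor
  · rintro a b ha hb ⟨h1, h2⟩
    rcases mem_labB.1 ha with ⟨i, e, he, rfl⟩ | ⟨i, e, he, rfl⟩ <;>
      rcases mem_labB.1 hb with ⟨j, e', he', rfl⟩ | ⟨j, e', he', rfl⟩
    · exact absurd rfl h2
    · have hij : i = j := h1
      subst hij
      have := app_get he he'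
      subst this
      exact ⟨rfl, rfl⟩
    · have hij : i = j := h1
      subst hij
      have := app_get he' he
      subst this
      exact ⟨rfl, rfl⟩
    · exact absurd rfl h2
  · rintro a b ha hb h1 h2
    rcases mem_labB.1 ha with ⟨i, e, he, rfl⟩ | ⟨i, e, he, rfl⟩ <;>
      rcases mem_labB.1 hb with ⟨j, e', he', rfl⟩ | ⟨j, e', he', rfl⟩
    · have hij : i = j := h1
      subst hij
      rw [he] at he'
      rw [Option.some.inj he']
    · exact absurd h2 (by simp [dir])
    · exact absurd h2 (by simp [dir])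
    · have hij : i = j := h1
      subst hij
      rw [he] at he'
      rw [Option.some.inj he']

theorem dir_labB (E A : List (ℕ × ℕ × ℕ)) : ∀ a ∈ labB E A, E.length ≤ idx a → dir a = true := by
  intro a ha h
  rcases mem_labB.1 ha with ⟨i, e, he, rfl⟩ | ⟨i, e, he, rfl⟩
  · rfl
  · have hi : i < E.length := (List.getElem?_eq_some_iff.1 he).1
    have : E.length ≤ i := h
    omega

/-! ### rational lengths -/

/-- the rational arc of a labelled arc -/
def toq (N : ℕ) (a : Arc) : Arcq := (a.1, a.2.1, (a.2.2.1 : ℚ) / N)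

theorem cden_pos (l : List Arcq) : 0 < cden l := by
  unfold cden
  apply Nat.pos_of_ne_zero
  intro h
  rw [List.prod_eq_zero_iff] at h
  obtain ⟨a, _, ha⟩ := List.mem_map.1 h
  exact a.2.2.den_nz ha

theorem den_dvd {l : List Arcq} {e : Arcq} (he : e ∈ l) : e.2.2.den ∣ cden l := by
  unfold cden
  exact List.dvd_prod (List.mem_map_of_mem (f := fun a : Arcq => a.2.2.den) he)

theorem scal_val {N : ℕ} {e : Arcq} (hN : 0 < N) (hd : e.2.2.den ∣ N) (h0 : 0 ≤ e.2.2) :
    (((scal N e).2.2 : ℕ) : ℚ) / N = e.2.2 := by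
  obtain ⟨c, hc⟩ := hd
  have hdp := e.2.2.den_pos
  unfold scal
  simp only
  have h1 : N / e.2.2.den = c := by rw [hc]; exact Nat.mul_div_cancel_left c hdp
  have h2 : ((e.2.2.num.natAbs : ℕ) : ℚ) = (e.2.2.num : ℚ) := by
    have : 0 ≤ e.2.2.num := Rat.num_nonneg.2 h0
    have h3 : ((e.2.2.num.natAbs : ℕ) : ℤ) = e.2.2.num := Int.natAbs_of_nonneg this
    calc ((e.2.2.num.natAbs : ℕ) : ℚ) = (((e.2.2.num.natAbs : ℕ) : ℤ) : ℚ) := by
          rw [Int.cast_natCast]
      _ = (e.2.2.num : ℚ) := by rw [h3]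
  rw [h1]
  push_cast
  rw [h2, hc]
  push_cast
  have hcp : (c : ℚ) ≠ 0 := by
    rintro h
    have : c = 0 := by exact_mod_cast h
    rw [this] at hc
    omega
  have hdq : (e.2.2.den : ℚ) ≠ 0 := by exact_mod_cast hdp.ne'
  rw [mul_div_mul_right _ _ hcp, Rat.num_div_den]

section bridge

variable {D : List Arcq} {L : Arc → Prop} {N : ℕ}

theorem walk_toq (hD : ∀ e, e ∈ D ↔ ∃ a, L a ∧ toq N a = e) : ∀ {l : List Arcq} {x y : ℕ},
    IsWalkq D x y l ↔ ∃ P, IsWalk x y P ∧ (∀ a ∈ P, L a) ∧ P.map (toq N) = l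
  | [], x, y => by
    constructor
    · intro h
      exact ⟨[], h, by simp, rfl⟩
    · rintro ⟨P, hP, -, h⟩
      rw [List.map_eq_nil_iff] at h
      subst h
      exact hP
  | e :: l, x, y => by
    constructor
    · rintro ⟨h1, h2, h3⟩
      obtain ⟨a, ha, rfl⟩ := (hD e).1 h1
      obtain ⟨P, hP, hPL, rfl⟩ := (walk_toq hD).1 h3
      refine ⟨a :: P, ⟨h2, hP⟩, ?_, rfl⟩
      intro b hb
      rcases List.mem_cons.1 hb with rfl | hb
      · exact ha
      · exact hPL b hb
    · rintro ⟨P, hP, hPL, h⟩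
      cases P with
      | nil => simp at h
      | cons a P =>
        rw [List.map_cons, List.cons.injEq] at h
        obtain ⟨rfl, h⟩ := h
        exact ⟨(hD _).2 ⟨a, hPL a List.mem_cons_self, rfl⟩, hP.1,
          (walk_toq hD).2 ⟨P, hP.2, fun b hb => hPL b (List.mem_cons_of_mem _ hb), h⟩⟩

theorem lenq_toq (P : List Arc) : lenq (P.map (toq N)) = (tot P : ℚ) / N := by
  induction P with
  | nil => simp [lenq, tot]
  | cons a P ih =>
    unfold lenq at ih ⊢
    rw [List.map_cons, List.map_cons, List.sum_cons, ih, tot_cons]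
    simp only [toq, len]
    push_cast
    ring

theorem dist_le (hD : ∀ e, e ∈ D ↔ ∃ a, L a ∧ toq N a = e) {x y : ℕ} {P : List Arc}
    (hP : IsWalk x y P) (hL : ∀ a ∈ P, L a) :
    dist D x y ≤ ((((tot P : ℚ) / N : ℚ) : ℝ) : EReal) := by
  have h := (walk_toq hD (l := P.map (toq N))).2 ⟨P, hP, hL, rfl⟩
  have h2 := iInf_le (fun l : {l : List Arcq // IsWalkq D x y l} => ((lenq l.1 : ℝ) : EReal))
    ⟨P.map (toq N), h⟩
  simp only [lenq_toq] at h2
  exact h2

theorem le_dist (hD : ∀ e, e ∈ D ↔ ∃ a, L a ∧ toq N a = e) {x y : ℕ} {c : EReal}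
    (hc : ∀ P, IsWalk x y P → (∀ a ∈ P, L a) → c ≤ ((((tot P : ℚ) / N : ℚ) : ℝ) : EReal)) :
    c ≤ dist D x y := by
  refine le_iInf fun l => ?_
  obtain ⟨P, hP, hL, h⟩ := (walk_toq hD).1 l.2
  rw [← h, lenq_toq]
  exact hc P hP hL

theorem dist_eq_iff {D' : List Arcq} {L' : Arc → Prop} (hN : 0 < N)
    (hD : ∀ e, e ∈ D ↔ ∃ a, L a ∧ toq N a = e)
    (hD' : ∀ e, e ∈ D' ↔ ∃ a, L' a ∧ toq N a = e) (hLL : ∀ a, L' a → L a) {x y : ℕ} :
    dist D' x y = dist D x y ↔ ∀ P, IsWalk x y P → (∀ a ∈ P, L a) →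
      ∃ P', IsWalk x y P' ∧ (∀ a ∈ P', L' a) ∧ tot P' ≤ tot P := by
  have hNq : (0 : ℚ) < N := by exact_mod_cast hN
  have hmono : ∀ {a b : ℕ}, a ≤ b →
      ((((a : ℚ) / N : ℚ) : ℝ) : EReal) ≤ ((((b : ℚ) / N : ℚ) : ℝ) : EReal) := by
    intro a b h
    rw [EReal.coe_le_coe_iff, Rat.cast_le]
    exact div_le_div_of_nonneg_right (by exact_mod_cast h) hNq.le
  constructor
  · intro h P hP hPL
    by_cases hex : ∃ P', IsWalk x y P' ∧ ∀ a ∈ P', L' a
    · -- choose a shortest walk
      have hne : ∃ k, ∃ P', IsWalk x y P' ∧ (∀ a ∈ P', L' a) ∧ tot P' = k := by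
        obtain ⟨P', h1, h2⟩ := hex
        exact ⟨tot P', P', h1, h2, rfl⟩
      classical
      obtain ⟨P', h1, h2, h3⟩ := Nat.find_spec hne
      have hmin : ∀ P'', IsWalk x y P'' → (∀ a ∈ P'', L' a) → tot P' ≤ tot P'' := by
        intro P'' h4 h5
        rw [h3]
        exact Nat.find_min' hne ⟨P'', h4, h5, rfl⟩
      refine ⟨P', h1, h2, ?_⟩
      have h4 : ((((tot P' : ℚ) / N : ℚ) : ℝ) : EReal) ≤ dist D' x y :=
        le_dist hD' fun P'' h5 h6 => hmono (hmin P'' h5 h6)
      have h5 := dist_le hD hP hPL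
      rw [← h] at h5
      have h6 := h4.trans h5
      rw [EReal.coe_le_coe_iff, Rat.cast_le, div_le_div_iff_of_pos_right hNq] at h6
      exact_mod_cast h6
    · exfalso
      have h4 : (⊤ : EReal) ≤ dist D' x y := le_dist hD' fun P' h1 h2 => absurd ⟨P', h1, h2⟩ hex
      have h5 := dist_le hD hP hPL
      rw [← h] at h5
      have h6 := h4.trans h5
      rw [top_le_iff] at h6
      exact EReal.coe_ne_top _ h6
  · intro h
    apply le_antisymm
    · refine le_dist hD fun P hP hPL => ?_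
      obtain ⟨P', h1, h2, h3⟩ := h P hP hPL
      exact (dist_le hD' h1 h2).trans (hmono h3)
    · exact le_dist hD' fun P' h1 h2 => dist_le hD h1 fun a ha => hLL a (h2 a ha)

end bridge

theorem nnb_iff {l : List Arcq} : nnb l = true ↔ ∀ e ∈ l, 0 ≤ e.2.2 := by
  unfold nnb
  rw [List.all_eq_true]
  refine forall_congr' fun e => imp_congr Iff.rfl ?_
  rw [Bool.not_eq_true', decide_eq_false_iff_not, not_lt, Rat.num_nonneg]

section mixed

variable {E A : List Arcq}

theorem toq_scal {N : ℕ} {e : Arcq} (hN : 0 < N) (hd : e.2.2.den ∣ N) (h0 : 0 ≤ e.2.2) (i : ℕ)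
    (b : Bool) : toq N ((scal N e).1, (scal N e).2.1, (scal N e).2.2, i, b) = e := by
  have := scal_val hN hd h0
  unfold toq
  simp only
  rw [this]
  rfl

theorem toq_scal' {N : ℕ} {e : Arcq} (hN : 0 < N) (hd : e.2.2.den ∣ N) (h0 : 0 ≤ e.2.2) (i : ℕ)
    (b : Bool) : toq N ((scal N e).2.1, (scal N e).1, (scal N e).2.2, i, b) = flip e := by
  have := scal_val hN hd h0
  unfold toq flip
  simp only
  rw [this]
  rfl

theorem full_iff {N : ℕ} (hN : 0 < N) (hdE : ∀ e ∈ E, e.2.2.den ∣ N)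
    (hdA : ∀ e ∈ A, e.2.2.den ∣ N) (hE : ∀ e ∈ E, 0 ≤ e.2.2) (hA : ∀ e ∈ A, 0 ≤ e.2.2)
    (e : Arcq) : e ∈ (E ++ E.map flip) ++ A ↔
      ∃ a, a ∈ labB (E.map (scal N)) (A.map (scal N)) ∧ toq N a = e := by
  rw [List.mem_append, List.mem_append, List.mem_map]
  constructor
  · rintro ((h | ⟨e', h, rfl⟩) | h)
    · obtain ⟨i, hi⟩ := List.mem_iff_getElem?.1 h
      refine ⟨_, mem_labB.2 (Or.inl ⟨i, scal N e, ?_, rfl⟩),
        toq_scal hN (hdE e h) (hE e h) i true⟩
      rw [← List.map_append, List.getElem?_map,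
        List.getElem?_append_left (List.getElem?_eq_some_iff.1 hi).1, hi]
      rfl
    · obtain ⟨i, hi⟩ := List.mem_iff_getElem?.1 h
      refine ⟨_, mem_labB.2 (Or.inr ⟨i, scal N e', ?_, rfl⟩),
        toq_scal' hN (hdE e' h) (hE e' h) i false⟩
      rw [List.getElem?_map, hi]
      rfl
    · obtain ⟨i, hi⟩ := List.mem_iff_getElem?.1 h
      refine ⟨_, mem_labB.2 (Or.inl ⟨E.length + i, scal N e, ?_, rfl⟩),
        toq_scal hN (hdA e h) (hA e h) (E.length + i) true⟩
      rw [← List.map_append, List.getElem?_map, List.getElem?_append_right (by omega),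
        Nat.add_sub_cancel_left, hi]
      rfl
  · rintro ⟨a, ha, rfl⟩
    rcases mem_labB.1 ha with ⟨i, e', he', rfl⟩ | ⟨i, e', he', rfl⟩
    · rw [← List.map_append, List.getElem?_map, Option.map_eq_some_iff] at he'
      obtain ⟨e, he, rfl⟩ := he'
      have hm := List.mem_of_getElem? he
      rcases List.mem_append.1 hm with h | h
      · rw [toq_scal hN (hdE e h) (hE e h)]
        exact Or.inl (Or.inl h)
      · rw [toq_scal hN (hdA e h) (hA e h)]
        exact Or.inr h
    · rw [List.getElem?_map, Option.map_eq_some_iff] at he'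
      obtain ⟨e, he, rfl⟩ := he'
      have h := List.mem_of_getElem? he
      rw [toq_scal' hN (hdE e h) (hE e h)]
      exact Or.inl (Or.inr ⟨e, h, rfl⟩)

theorem orient_iff {N : ℕ} (hN : 0 < N) (hdE : ∀ e ∈ E, e.2.2.den ∣ N)
    (hdA : ∀ e ∈ A, e.2.2.den ∣ N) (hE : ∀ e ∈ E, 0 ≤ e.2.2) (hA : ∀ e ∈ A, 0 ≤ e.2.2)
    (σ : Fin E.length → Bool) (e : Arcq) : e ∈ orient E σ ++ A ↔
      ∃ a, Lo (fun a => a ∈ labB (E.map (scal N)) (A.map (scal N))) E.length σ a ∧
        toq N a = e := by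
  unfold orient
  rw [List.mem_append, List.mem_ofFn']
  constructor
  · rintro (⟨i, rfl⟩ | h)
    · have hm : E.get i ∈ E := List.get_mem _ _
      have hi : E[(i : ℕ)]? = some (E.get i) := by
        rw [List.getElem?_eq_getElem i.2]
        rfl
      by_cases hσ : σ i = true
      · refine ⟨_, ⟨mem_labB.2 (Or.inl ⟨i, scal N (E.get i), ?_, rfl⟩), ?_⟩, ?_⟩
        · rw [← List.map_append, List.getElem?_map,
            List.getElem?_append_left i.2, hi]
          rfl
        · intro _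
          exact hσ
        · beta_reduce
          rw [if_pos hσ]
          exact toq_scal hN (hdE _ hm) (hE _ hm) _ _
      · refine ⟨_, ⟨mem_labB.2 (Or.inr ⟨i, scal N (E.get i), ?_, rfl⟩), ?_⟩, ?_⟩
        · rw [List.getElem?_map, hi]
          rfl
        · intro _
          simpa using hσ
        · beta_reduce
          rw [if_neg hσ]
          exact toq_scal' hN (hdE _ hm) (hE _ hm) _ _
    · obtain ⟨i, hi⟩ := List.mem_iff_getElem?.1 h
      refine ⟨_, ⟨mem_labB.2 (Or.inl ⟨E.length + i, scal N e, ?_, rfl⟩), ?_⟩,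
        toq_scal hN (hdA e h) (hA e h) (E.length + i) true⟩
      · rw [← List.map_append, List.getElem?_map, List.getElem?_append_right (by omega),
          Nat.add_sub_cancel_left, hi]
        rfl
      · intro h'
        have h'' : E.length + i < E.length := h'
        omega
  · rintro ⟨a, ⟨ha, hσ⟩, rfl⟩
    rcases mem_labB.1 ha with ⟨i, e', he', rfl⟩ | ⟨i, e', he', rfl⟩
    · rw [← List.map_append, List.getElem?_map, Option.map_eq_some_iff] at he'
      obtain ⟨e, he, rfl⟩ := he'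
      by_cases hi : i < E.length
      · rw [List.getElem?_append_left hi, List.getElem?_eq_some_iff] at he
        obtain ⟨_, he⟩ := he
        have hs : σ ⟨i, hi⟩ = true := hσ hi
        left
        refine ⟨⟨i, hi⟩, ?_⟩
        beta_reduce
        rw [if_pos hs]
        have hm : e ∈ E := by rw [← he]; exact List.getElem_mem _
        rw [toq_scal hN (hdE _ hm) (hE _ hm)]
        exact he
      · rw [List.getElem?_append_right (by omega)] at he
        have hm := List.mem_of_getElem? he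
        rw [toq_scal hN (hdA _ hm) (hA _ hm)]
        exact Or.inr hm
    · rw [List.getElem?_map, Option.map_eq_some_iff] at he'
      obtain ⟨e, he, rfl⟩ := he'
      rw [List.getElem?_eq_some_iff] at he
      obtain ⟨hi, he⟩ := he
      have hs : σ ⟨i, hi⟩ = false := hσ hi
      left
      refine ⟨⟨i, hi⟩, ?_⟩
      beta_reduce
      rw [if_neg (show ¬ σ ⟨i, hi⟩ = true by rw [hs]; decide)]
      have hm : e ∈ E := by rw [← he]; exact List.getElem_mem _
      rw [toq_scal' hN (hdE _ hm) (hE _ hm)]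
      exact congrArg flip he

end mixed

theorem solve_iff (hAH : AHStmt) (hLev : LevStmt) (hS : SimpStmt) (hC : ConsStmt)
    (hBF : BFStmt) (x : List Arcq × List Arcq × ℕ × ℕ) : MixOri x ↔ solve x = true := by
  unfold MixOri solve
  rw [Bool.and_eq_true, Bool.and_eq_true, nnb_iff, nnb_iff]
  refine and_congr_right fun hE => and_congr_right fun hA => ?_
  set N := cden (x.1 ++ x.2.1) with hNdef
  have hN : 0 < N := cden_pos _
  have hdE : ∀ e ∈ x.1, e.2.2.den ∣ N := fun e he => den_dvd (List.mem_append_left _ he)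
  have hdA : ∀ e ∈ x.2.1, e.2.2.den ∣ N := fun e he => den_dvd (List.mem_append_right _ he)
  have hlen : (x.1.map (scal N)).length = x.1.length := List.length_map _
  rw [solveB_iff (n := x.1.length) hAH hLev hS hC hBF (lab_labB _ _)
    (fun a ha h => dir_labB _ _ a ha (by rw [hlen]; exact h))]
  refine exists_congr fun σ => and_congr ?_ ?_
  · exact dist_eq_iff hN (full_iff hN hdE hdA hE hA) (orient_iff hN hdE hdA hE hA σ)
      (fun a ha => ha.1)
  · exact dist_eq_iff hN (full_iff hN hdE hdA hE hA) (orient_iff hN hdE hdA hE hA σ)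
      (fun a ha => ha.1)

end Pool.Agent.R547.MO
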