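import Pool.Agent.R547.MO.Defs

/-! Piece LEV: the levels. -/

set_option autoImplicit false

namespace Pool.Agent.R547.MO

namespace LevP

theorem walk_append {P Q : List Arc} {x z : ℕ} :
    IsWalk x z (P ++ Q) ↔ ∃ y, IsWalk x y P ∧ IsWalk y z Q := by
  induction P generalizing x with
  | nil => simp [IsWalk]
  | cons a P ih =>
    simp only [List.cons_append, IsWalk, ih]
    constructor
    · rintro ⟨h, y, h1, h2⟩; exact ⟨y, ⟨h, h1⟩, h2⟩
    · rintro ⟨y, ⟨h, h1⟩, h2⟩; exact ⟨h, y, h1, h2⟩

variable {B : Arc → Prop} {p q : ℕ → ℕ}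

theorem pt_le (hP : Pot B p q) {a : Arc} (ha : PT B p a) :
    lev p q (src a) ≤ lev p q (tgt a) := by
  have h1 := hP.hq a ha.1
  have h2 := ha.2
  unfold lev
  omega

theorem qt_le (hP : Pot B p q) {a : Arc} (ha : QT B q a) :
    lev p q (tgt a) ≤ lev p q (src a) := by
  have h1 := hP.hp a ha.1
  have h2 := ha.2
  unfold lev
  omega

theorem pt_lv {a : Arc} (ha : PT B p a) (h : lev p q (src a) = lev p q (tgt a)) :
    Lv B p q a := by
  refine ⟨ha, ha.1, ?_⟩
  have h2 := ha.2
  unfold lev at h
  omega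

theorem qt_lv {a : Arc} (ha : QT B q a) (h : lev p q (src a) = lev p q (tgt a)) :
    Lv B p q a := by
  refine ⟨⟨ha.1, ?_⟩, ha⟩
  have h2 := ha.2
  unfold lev at h
  omega

theorem lv_eq (hP : Pot B p q) {a : Arc} (ha : Lv B p q a) :
    lev p q (src a) = lev p q (tgt a) :=
  le_antisymm (pt_le hP ha.1) (qt_le hP ha.2)

theorem pwalk (hP : Pot B p q) {P : List Arc} {x y : ℕ} (hw : IsWalk x y P)
    (h : ∀ a ∈ P, PT B p a) :
    lev p q x ≤ lev p q y ∧ ∀ a ∈ P, lev p q x ≤ lev p q (src a) ∧ lev p q (tgt a) ≤ lev p q y := by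
  induction P generalizing x with
  | nil =>
    have : x = y := hw
    subst this
    exact ⟨le_rfl, by simp⟩
  | cons a P ih =>
    obtain ⟨h1, h2⟩ := hw
    have h3 := ih h2 (fun b hb => h b (List.mem_cons_of_mem _ hb))
    have h4 := pt_le hP (h a List.mem_cons_self)
    subst h1
    refine ⟨h4.trans h3.1, ?_⟩
    intro b hb
    rcases List.mem_cons.mp hb with rfl | hb
    · exact ⟨le_rfl, h3.1⟩
    · exact ⟨h4.trans (h3.2 b hb).1, (h3.2 b hb).2⟩

theorem qwalk (hP : Pot B p q) {P : List Arc} {x y : ℕ} (hw : IsWalk x y P)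
    (h : ∀ a ∈ P, QT B q a) :
    lev p q y ≤ lev p q x ∧ ∀ a ∈ P, lev p q y ≤ lev p q (tgt a) ∧ lev p q (src a) ≤ lev p q x := by
  induction P generalizing x with
  | nil =>
    have : x = y := hw
    subst this
    exact ⟨le_rfl, by simp⟩
  | cons a P ih =>
    obtain ⟨h1, h2⟩ := hw
    have h3 := ih h2 (fun b hb => h b (List.mem_cons_of_mem _ hb))
    have h4 := qt_le hP (h a List.mem_cons_self)
    subst h1
    refine ⟨h3.1.trans h4, ?_⟩
    intro b hb
    rcases List.mem_cons.mp hb with rfl | hb
    · exact ⟨h3.1, le_rfl⟩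
    · exact ⟨(h3.2 b hb).1, (h3.2 b hb).2.trans h4⟩

/-- a level walk stays in its level -/
theorem lwalk (hP : Pot B p q) {P : List Arc} {x y : ℕ} (hw : IsWalk x y P)
    (h : ∀ a ∈ P, Lv B p q a) :
    lev p q x = lev p q y ∧ ∀ a ∈ P, lev p q (src a) = lev p q x ∧ lev p q (tgt a) = lev p q x := by
  have h1 := pwalk hP hw (fun a ha => (h a ha).1)
  have h2 := qwalk hP hw (fun a ha => (h a ha).2)
  refine ⟨le_antisymm h1.1 h2.1, fun a ha => ?_⟩
  have h3 := lv_eq hP (h a ha)
  have h4 := h1.2 a ha
  have h5 := h2.2 a ha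
  omega

theorem pwalk_lv (hP : Pot B p q) {P : List Arc} {x y : ℕ} (hw : IsWalk x y P)
    (h : ∀ a ∈ P, PT B p a) (hxy : lev p q x = lev p q y) : ∀ a ∈ P, Lv B p q a := by
  intro a ha
  refine pt_lv (h a ha) ?_
  have h1 := (pwalk hP hw h).2 a ha
  have h2 := pt_le hP (h a ha)
  omega

theorem qwalk_lv (hP : Pot B p q) {P : List Arc} {x y : ℕ} (hw : IsWalk x y P)
    (h : ∀ a ∈ P, QT B q a) (hxy : lev p q x = lev p q y) : ∀ a ∈ P, Lv B p q a := by
  intro a ha
  refine qt_lv (h a ha) ?_
  have h1 := (qwalk hP hw h).2 a ha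
  have h2 := qt_le hP (h a ha)
  omega

theorem psplit (hP : Pot B p q) {P : List Arc} {x y : ℕ} (hw : IsWalk x y P)
    (h : ∀ a ∈ P, PT B p a) (hxy : lev p q x < lev p q y) :
    ∃ P1 a P2, P = P1 ++ a :: P2 ∧ (∀ c ∈ P1, Lv B p q c) ∧ IsWalk x (src a) P1 ∧
      IsWalk (tgt a) y P2 ∧ lev p q (src a) = lev p q x ∧ lev p q x < lev p q (tgt a) := by
  induction P generalizing x with
  | nil =>
    have : x = y := hw
    subst this
    exact absurd hxy (lt_irrefl _)
  | cons c P ih =>
    obtain ⟨h1, h2⟩ := hw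
    have hc := h c List.mem_cons_self
    have h4 := pt_le hP hc
    by_cases h5 : lev p q x < lev p q (tgt c)
    · exact ⟨[], c, P, rfl, by simp, h1.symm, h2, by rw [h1], h5⟩
    · have h6 : lev p q x = lev p q (tgt c) := by rw [h1] at h4; omega
      obtain ⟨P1, a, P2, e, g1, g2, g3, g4, g5⟩ := ih h2
        (fun b hb => h b (List.mem_cons_of_mem _ hb)) (by omega)
      refine ⟨c :: P1, a, P2, by rw [e]; rfl, ?_, ⟨h1, g2⟩, g3, by omega, by omega⟩
      intro d hd
      rcases List.mem_cons.mp hd with rfl | hd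
      · exact pt_lv hc (by rw [h1]; exact h6)
      · exact g1 d hd

theorem qsplit (hP : Pot B p q) {P : List Arc} {x y : ℕ} (hw : IsWalk x y P)
    (h : ∀ a ∈ P, QT B q a) (hxy : lev p q y < lev p q x) :
    ∃ P2 a P1, P = P2 ++ a :: P1 ∧ (∀ c ∈ P1, Lv B p q c) ∧ IsWalk x (src a) P2 ∧
      IsWalk (tgt a) y P1 ∧ lev p q (tgt a) = lev p q y ∧ lev p q y < lev p q (src a) := by
  induction P generalizing x with
  | nil =>
    have : x = y := hw
    subst this
    exact absurd hxy (lt_irrefl _)
  | cons c P ih =>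
    obtain ⟨h1, h2⟩ := hw
    have hP' : ∀ a ∈ P, QT B q a := fun b hb => h b (List.mem_cons_of_mem _ hb)
    have h3 := (qwalk hP h2 hP').1
    by_cases h5 : lev p q (tgt c) = lev p q y
    · refine ⟨[], c, P, rfl, qwalk_lv hP h2 hP' h5, h1.symm, h2, h5, ?_⟩
      rw [h1]; exact hxy
    · obtain ⟨P2, a, P1, e, g1, g2, g3, g4, g5⟩ := ih h2 hP' (by omega)
      exact ⟨c :: P2, a, P1, by rw [e]; rfl, g1, ⟨h1, g2⟩, g3, g4, g5⟩

theorem good_of_final {t : ℕ} {z : ℕ × ℕ} (h : Final B p q t z) : Good B p q t z := by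
  obtain ⟨-, P, Q, h1, h2, h3, h4, h5⟩ := h
  exact ⟨P, Q, h1, h2, fun a ha => (h3 a ha).1, fun b hb => (h4 b hb).2, h5⟩

theorem good_of_step (hB : Lab B) (hP : Pot B p q) {t : ℕ} {z z' : ℕ × ℕ}
    (hs : Step B p q z z') (hg : Good B p q t z') : Good B p q t z := by
  obtain ⟨P, Q, h1, h2, h3, h4, h5⟩ := hg
  rcases hs with ⟨hl, he, a, ha, hsa, hta⟩ | ⟨hl, he, b, hb, htb, hsb⟩ |
    ⟨hl, a, b, ha, hb, l1, l2, l3, l4, hab, hT, hta, hsb⟩
  · refine ⟨a :: P, Q, ⟨hsa, by rw [hta]; exact h1⟩, by rw [← he]; exact h2, ?_, h4, ?_⟩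
    · intro c hc
      rcases List.mem_cons.mp hc with rfl | hc
      · exact ha
      · exact h3 c hc
    · intro c hc d hd hcd
      rcases List.mem_cons.mp hc with rfl | hc
      · have h6 := (hB.rev c d ha.1 (h4 d hd).1 hcd).2
        have h7 := ((qwalk hP h2 h4).2 d hd).1
        rw [h6, hsa, he] at h7
        omega
      · exact h5 c hc d hd hcd
  · refine ⟨P, Q ++ [b], by rw [← he]; exact h1,
      walk_append.mpr ⟨z'.2, h2, hsb, htb⟩, h3, ?_, ?_⟩
    · intro c hc
      rcases List.mem_append.mp hc with hc | hc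
      · exact h4 c hc
      · rw [List.mem_singleton.mp hc]; exact hb
    · intro c hc d hd hcd
      rcases List.mem_append.mp hd with hd | hd
      · exact h5 c hc d hd hcd
      · rw [List.mem_singleton.mp hd] at hcd
        have h6 := (hB.rev c b (h3 c hc).1 hb.1 hcd).2
        have h7 := ((pwalk hP h1 h3).2 c hc).1
        rw [← h6, htb, he] at h7
        omega
  · obtain ⟨P1, Q1, t1, t2, t3, t4, t5⟩ := hT
    have m1 := lwalk hP t1 t3
    have m2 := lwalk hP t2 t4
    have m3 := pwalk hP h1 h3
    have m4 := qwalk hP h2 h4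
    refine ⟨P1 ++ a :: P, Q ++ b :: Q1,
      walk_append.mpr ⟨src a, t1, rfl, by rw [hta]; exact h1⟩,
      walk_append.mpr ⟨z'.2, h2, hsb, t2⟩, ?_, ?_, ?_⟩
    · intro c hc
      rcases List.mem_append.mp hc with hc | hc
      · exact (t3 c hc).1
      · rcases List.mem_cons.mp hc with rfl | hc
        · exact ha
        · exact h3 c hc
    · intro c hc
      rcases List.mem_append.mp hc with hc | hc
      · exact h4 c hc
      · rcases List.mem_cons.mp hc with rfl | hc
        · exact hb
        · exact (t4 c hc).2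
    · intro c hc d hd hcd
      have k1 : ∀ c ∈ P, lev p q z.1 < lev p q (src c) := fun c hc => by
        have := (m3.2 c hc).1
        rw [← hta] at this
        omega
      have k2 : ∀ d ∈ Q, lev p q z.1 < lev p q (tgt d) := fun d hd => by
        have := (m4.2 d hd).1
        rw [← hsb] at this
        omega
      have k3 : ∀ d ∈ Q1, lev p q (tgt d) = lev p q z.1 ∧ lev p q (src d) = lev p q z.1 :=
        fun d hd => by
          have := m2.2 d hd
          omega
      have hd' : B d := by
        rcases List.mem_append.mp hd with hd | hd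
        · exact (h4 d hd).1
        · rcases List.mem_cons.mp hd with rfl | hd
          · exact hb.1
          · exact (t4 d hd).1.1
      have hc' : B c := by
        rcases List.mem_append.mp hc with hc | hc
        · exact (t3 c hc).1.1
        · rcases List.mem_cons.mp hc with rfl | hc
          · exact ha.1
          · exact (h3 c hc).1
      obtain ⟨r1, r2⟩ := hB.rev c d hc' hd' hcd
      rcases List.mem_append.mp hc with hc | hc
      · have n1 := m1.2 c hc
        rcases List.mem_append.mp hd with hd | hd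
        · have := k2 d hd
          rw [r2] at this
          omega
        · rcases List.mem_cons.mp hd with rfl | hd
          · rw [r1] at l4
            omega
          · exact t5 c hc d hd hcd
      · rcases List.mem_cons.mp hc with rfl | hc
        · rcases List.mem_append.mp hd with hd | hd
          · have := k2 d hd
            rw [r2] at this
            omega
          · rcases List.mem_cons.mp hd with rfl | hd
            · exact hab hcd
            · have := k3 d hd
              rw [r1] at this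
              omega
        · have n1 := k1 c hc
          rcases List.mem_append.mp hd with hd | hd
          · exact h5 c hc d hd hcd
          · rcases List.mem_cons.mp hd with rfl | hd
            · rw [r2] at l3
              omega
            · have := k3 d hd
              rw [r2] at this
              omega

theorem exists_of_good (hP : Pot B p q) {t : ℕ} : ∀ (n : ℕ) (P Q : List Arc) (z : ℕ × ℕ),
    P.length + Q.length ≤ n → IsWalk z.1 t P → IsWalk t z.2 Q → (∀ a ∈ P, PT B p a) →
    (∀ b ∈ Q, QT B q b) → (∀ a ∈ P, ∀ b ∈ Q, ¬ conf a b) →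
    ∃ z', Relation.ReflTransGen (Step B p q) z z' ∧ Final B p q t z' := by
  intro n
  induction n with
  | zero =>
    intro P Q z hn h1 h2 h3 h4 h5
    have hP0 : P = [] := List.length_eq_zero_iff.mp (by omega)
    have hQ0 : Q = [] := List.length_eq_zero_iff.mp (by omega)
    subst hP0 hQ0
    have e1 : z.1 = t := h1
    have e2 : t = z.2 := h2
    exact ⟨z, Relation.ReflTransGen.refl, by rw [e1, ← e2], [], [], h1, h2, by simp, by simp,
      by simp⟩
  | succ n ih =>
    intro P Q z hn h1 h2 h3 h4 h5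
    rcases lt_trichotomy (lev p q z.1) (lev p q z.2) with hl | hl | hl
    · cases P with
      | nil =>
        have e1 : z.1 = t := h1
        have := (qwalk hP h2 h4).1
        rw [e1] at hl
        omega
      | cons a P =>
        obtain ⟨w1, w2⟩ := h1
        have ha := h3 a List.mem_cons_self
        obtain ⟨z', r1, r2⟩ := ih P Q (tgt a, z.2) (by simp only [List.length_cons] at hn; omega)
          w2 h2 (fun c hc => h3 c (List.mem_cons_of_mem _ hc)) h4
          (fun c hc => h5 c (List.mem_cons_of_mem _ hc))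
        have hs : Step B p q z (tgt a, z.2) := Or.inl ⟨hl, rfl, a, ha, w1, rfl⟩
        exact ⟨z', Relation.ReflTransGen.head hs r1, r2⟩
    · by_cases ht : lev p q t = lev p q z.1
      · refine ⟨z, Relation.ReflTransGen.refl, hl, P, Q, h1, h2, ?_, ?_, h5⟩
        · exact pwalk_lv hP h1 h3 ht.symm
        · exact qwalk_lv hP h2 h4 (by omega)
      · have h6 := (pwalk hP h1 h3).1
        obtain ⟨P1, a, P2, e, g1, g2, g3, g4, g5⟩ := psplit hP h1 h3 (by omega)
        obtain ⟨Q2, b, Q1, e', g1', g2', g3', g4', g5'⟩ := qsplit hP h2 h4 (by omega)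
        subst e e'
        have ha : a ∈ P1 ++ a :: P2 := List.mem_append.mpr (Or.inr List.mem_cons_self)
        have hb : b ∈ Q2 ++ b :: Q1 := List.mem_append.mpr (Or.inr List.mem_cons_self)
        obtain ⟨z', r1, r2⟩ := ih P2 Q2 (tgt a, src b)
          (by simp only [List.length_append, List.length_cons] at hn; omega) g3 g2'
          (fun c hc => h3 c (List.mem_append.mpr (Or.inr (List.mem_cons_of_mem _ hc))))
          (fun c hc => h4 c (List.mem_append.mpr (Or.inl hc)))
          (fun c hc d hd => h5 c (List.mem_append.mpr (Or.inr (List.mem_cons_of_mem _ hc))) d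
            (List.mem_append.mpr (Or.inl hd)))
        refine ⟨z', Relation.ReflTransGen.head (Or.inr (Or.inr ?_)) r1, r2⟩
        refine ⟨hl, a, b, h3 a ha, h4 b hb, g4, by omega, by omega, by omega, h5 a ha b hb, ?_,
          rfl, rfl⟩
        exact ⟨P1, Q1, g2, g3', g1, g1', fun c hc d hd => h5 c (List.mem_append.mpr (Or.inl hc)) d
          (List.mem_append.mpr (Or.inr (List.mem_cons_of_mem _ hd)))⟩
    · rcases List.eq_nil_or_concat' Q with rfl | ⟨Q', b, rfl⟩
      · have e1 : t = z.2 := h2
        have := (pwalk hP h1 h3).1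
        rw [e1] at this
        omega
      · obtain ⟨y, w1, w2, w3⟩ := walk_append.mp h2
        have w3' : tgt b = z.2 := w3
        have hb := h4 b (List.mem_append.mpr (Or.inr (List.mem_singleton.mpr rfl)))
        obtain ⟨z', r1, r2⟩ := ih P Q' (z.1, src b)
          (by simp only [List.length_append, List.length_singleton] at hn; omega) h1
          (by rw [w2]; exact w1) h3 (fun c hc => h4 c (List.mem_append.mpr (Or.inl hc)))
          (fun c hc d hd => h5 c hc d (List.mem_append.mpr (Or.inl hd)))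
        have hs : Step B p q z (z.1, src b) := Or.inr (Or.inl ⟨hl, rfl, b, hb, w3', rfl⟩)
        exact ⟨z', Relation.ReflTransGen.head hs r1, r2⟩

end LevP

open LevP in
/-- Piece LEV. -/
theorem levels : LevStmt := by
  intro B p q t hB hP z
  constructor
  · rintro ⟨P, Q, h1, h2, h3, h4, h5⟩
    exact exists_of_good hP _ P Q z le_rfl h1 h2 h3 h4 h5
  · rintro ⟨z', h1, h2⟩
    induction h1 using Relation.ReflTransGen.head_induction_on with
    | refl => exact good_of_final h2
    | head hs _ ih => exact good_of_step hB hP hs ih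

end Pool.Agent.R547.MO
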