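import Pool.Agent.R547.MO.Defs

/-!
# Pieces SIMP and CONS: simple walks
-/

set_option autoImplicit false

namespace Pool.Agent.R547.MO

namespace SimpX

/-- a walk through `x` has a final part which starts in `x` -/
theorem suffix (x y : ℕ) : ∀ (P : List Arc) (z : ℕ), IsWalk z y P → x ∈ P.map src →
    ∃ P1, P1.Sublist P ∧ IsWalk x y P1 := by
  intro P
  induction P with
  | nil =>
    intro z _ h
    simp at h
  | cons b l ih =>
    intro z hw h
    by_cases hb : src b = x
    · exact ⟨b :: l, List.Sublist.refl _, hb, hw.2⟩
    · rw [List.map_cons, List.mem_cons] at h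
      rcases h with h | h
      · exact absurd h.symm hb
      · obtain ⟨P1, h1, h2⟩ := ih (tgt b) hw.2 h
        exact ⟨P1, h1.trans (List.sublist_cons_self b l), h2⟩

theorem simp_aux : ∀ (n : ℕ) (P : List Arc) (x y : ℕ), P.length ≤ n → IsWalk x y P →
    ∃ P', P'.Sublist P ∧ IsWalk x y P' ∧ (P'.map src).Nodup ∧ y ∉ P'.map src := by
  intro n
  induction n with
  | zero =>
    intro P x y hn hw
    have hP : P = [] := List.length_eq_zero_iff.1 (Nat.le_zero.1 hn)
    subst hP
    refine ⟨[], List.Sublist.refl _, hw, ?_, ?_⟩
    · simp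
    · simp
  | succ n ih =>
    intro P x y hn hw
    cases P with
    | nil =>
      refine ⟨[], List.Sublist.refl _, hw, ?_, ?_⟩
      · simp
      · simp
    | cons a P0 =>
      have hlen : P0.length ≤ n := by
        rw [List.length_cons] at hn
        omega
      by_cases hxy : x = y
      · refine ⟨[], List.nil_sublist _, hxy, ?_, ?_⟩
        · simp
        · simp
      by_cases hx : x ∈ P0.map src
      · obtain ⟨P1, h1, h2⟩ := suffix x y P0 (tgt a) hw.2 hx
        obtain ⟨P', h3, h4, h5, h6⟩ := ih P1 x y (h1.length_le.trans hlen) h2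
        exact ⟨P', (h3.trans h1).trans (List.sublist_cons_self a P0), h4, h5, h6⟩
      · obtain ⟨P', h3, h4, h5, h6⟩ := ih P0 (tgt a) y hlen hw.2
        refine ⟨a :: P', h3.cons_cons a, ⟨hw.1, h4⟩, ?_, ?_⟩
        · rw [List.map_cons, List.nodup_cons]
          refine ⟨fun h => hx ?_, h5⟩
          rw [hw.1] at h
          exact (h3.map src).subset h
        · rw [List.map_cons, List.mem_cons]
          rintro (h | h)
          · exact hxy (hw.1.symm.trans h.symm)
          · exact h6 h

/-- the end of an arc of a walk is the start of another arc or the end of the walk -/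
theorem tgt_mem (y : ℕ) : ∀ (P : List Arc) (x : ℕ), IsWalk x y P →
    x ∈ P.map src ∨ x = y := by
  intro P x hw
  cases P with
  | nil => exact Or.inr hw
  | cons c P0 =>
    left
    rw [List.map_cons, List.mem_cons]
    exact Or.inl hw.1.symm

theorem tgt_mem' (y : ℕ) : ∀ (P : List Arc) (x : ℕ), IsWalk x y P → ∀ b ∈ P,
    tgt b ∈ P.tail.map src ∨ tgt b = y := by
  intro P
  induction P with
  | nil =>
    intro x _ b hb
    simp at hb
  | cons c P0 ih =>
    intro x hw b hb
    rw [List.tail_cons]
    rcases List.mem_cons.1 hb with h | h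
    · subst h
      exact tgt_mem y P0 _ hw.2
    · rcases ih (tgt c) hw.2 b h with h1 | h1
      · left
        cases P0 with
        | nil => simp at h
        | cons d P1 =>
          rw [List.tail_cons] at h1
          rw [List.map_cons, List.mem_cons]
          exact Or.inr h1
      · exact Or.inr h1

theorem no_rev (y : ℕ) : ∀ (P : List Arc) (x : ℕ), IsWalk x y P → (P.map src).Nodup →
    y ∉ P.map src → ∀ a ∈ P, ∀ b ∈ P, ¬ (src b = tgt a ∧ tgt b = src a) := by
  intro P
  induction P with
  | nil =>
    intro x _ _ _ a ha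
    simp at ha
  | cons c P0 ih =>
    intro x hw hnd hy a ha b hb hab
    rw [List.map_cons, List.nodup_cons] at hnd
    rw [List.map_cons, List.mem_cons, not_or] at hy
    have key : ∀ d ∈ c :: P0, tgt d ≠ src c := by
      intro d hd h
      have h1 := tgt_mem' y (c :: P0) x hw d hd
      rw [List.tail_cons, h] at h1
      rcases h1 with h1 | h1
      · exact hnd.1 h1
      · exact hy.1 h1.symm
    rcases List.mem_cons.1 ha with h | h
    · subst h
      exact key b hb hab.2
    · rcases List.mem_cons.1 hb with h' | h'
      · subst h'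
        exact key a ha hab.1.symm
      · exact ih (tgt c) hw.2 hnd.2 hy.2 a h b h' hab

end SimpX

theorem simp : SimpStmt := fun P x y hw => SimpX.simp_aux P.length P x y le_rfl hw

theorem cons : ConsStmt := by
  intro L P x y hL hw hP hnd hy a ha b hb hc
  exact SimpX.no_rev y P x hw hnd hy a ha b hb (hL.rev a b (hP a ha) (hP b hb) hc)

end Pool.Agent.R547.MO
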