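import Pool.Agent.R547.MO.Fin
import Pool.Agent.R547.MO.AH
import Pool.Agent.R547.MO.Simp
import Pool.Agent.R547.MO.Lev
import Pool.Agent.R547.MO.BF

/-!
# Orientations of mixed graphs preserving two distances: the problem is in `P`
-/

set_option autoImplicit false

namespace Pool.Agent.R547.MO

open Pool.Agent.NPC

theorem mixOri_iff (x : List Arcq × List Arcq × ℕ × ℕ) : MixOri x ↔ solve x = true :=
  solve_iff (ah simp cons) levels simp cons (bf_correct_of simp) x

theorem mixOri_inP : InPP MixOri := inPP_of poly_solve mixOri_iff

end Pool.Agent.R547.MO
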