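import Pool.Agent.R547.MO.Spec

/-!
# Orientations and walks without conflicts
-/

set_option autoImplicit false

namespace Pool.Agent.R547.MO

/-- the arcs of the orientation given by `σ` -/
def Lo (B : Arc → Prop) (n : ℕ) (σ : Fin n → Bool) (a : Arc) : Prop :=
  B a ∧ ∀ h : idx a < n, σ ⟨idx a, h⟩ = dir a

/-- the orientation preserves the distance -/
def Pres (B : Arc → Prop) (n : ℕ) (σ : Fin n → Bool) (x y : ℕ) : Prop :=
  ∀ P, IsWalk x y P → (∀ a ∈ P, B a) →
    ∃ P', IsWalk x y P' ∧ (∀ a ∈ P', Lo B n σ a) ∧ tot P' ≤ tot P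

theorem tot_cons (a : Arc) (P : List Arc) : tot (a :: P) = len a + tot P := by
  unfold tot
  rw [List.map_cons, List.sum_cons]

section tele

variable {B : Arc → Prop} {p q : ℕ → ℕ}

theorem tele_p (hpot : Pot B p q) : ∀ {P : List Arc} {x y : ℕ}, IsWalk x y P →
    (∀ a ∈ P, B a) → p y ≤ p x + tot P
  | [], x, y, h, _ => by
    have : x = y := h
    subst this
    simp [tot]
  | a :: P, x, y, h, hP => by
    obtain ⟨h1, h2⟩ := h
    have h3 := tele_p hpot h2 fun b hb => hP b (List.mem_cons_of_mem _ hb)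
    have h4 := hpot.hp a (hP a List.mem_cons_self)
    rw [tot_cons]
    rw [h1] at h4
    omega

theorem tele_q (hpot : Pot B p q) : ∀ {P : List Arc} {x y : ℕ}, IsWalk x y P →
    (∀ a ∈ P, B a) → q x ≤ q y + tot P
  | [], x, y, h, _ => by
    have : x = y := h
    subst this
    simp [tot]
  | a :: P, x, y, h, hP => by
    obtain ⟨h1, h2⟩ := h
    have h3 := tele_q hpot h2 fun b hb => hP b (List.mem_cons_of_mem _ hb)
    have h4 := hpot.hq a (hP a List.mem_cons_self)
    rw [tot_cons]
    rw [h1] at h4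
    omega

theorem tight_p (hpot : Pot B p q) : ∀ {P : List Arc} {x y : ℕ}, IsWalk x y P →
    (∀ a ∈ P, B a) → p x + tot P ≤ p y → ∀ a ∈ P, PT B p a
  | [], x, y, _, _, _ => by simp
  | b :: P, x, y, h, hP, hle => by
    obtain ⟨h1, h2⟩ := h
    have hP' : ∀ c ∈ P, B c := fun c hc => hP c (List.mem_cons_of_mem _ hc)
    have h3 := tele_p hpot h2 hP'
    have h4 := hpot.hp b (hP b List.mem_cons_self)
    rw [tot_cons] at hle
    intro a ha
    rcases List.mem_cons.1 ha with rfl | ha
    · refine ⟨hP _ List.mem_cons_self, ?_⟩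
      rw [h1] at h4 ⊢
      omega
    · refine tight_p hpot h2 hP' ?_ a ha
      rw [h1] at h4
      omega

theorem tight_q (hpot : Pot B p q) : ∀ {P : List Arc} {x y : ℕ}, IsWalk x y P →
    (∀ a ∈ P, B a) → q y + tot P ≤ q x → ∀ a ∈ P, QT B q a
  | [], x, y, _, _, _ => by simp
  | b :: P, x, y, h, hP, hle => by
    obtain ⟨h1, h2⟩ := h
    have hP' : ∀ c ∈ P, B c := fun c hc => hP c (List.mem_cons_of_mem _ hc)
    have h3 := tele_q hpot h2 hP'
    have h4 := hpot.hq b (hP b List.mem_cons_self)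
    rw [tot_cons] at hle
    intro a ha
    rcases List.mem_cons.1 ha with rfl | ha
    · refine ⟨hP _ List.mem_cons_self, ?_⟩
      rw [h1] at h4 ⊢
      omega
    · refine tight_q hpot h2 hP' ?_ a ha
      rw [h1] at h4
      omega

theorem tot_p : ∀ {P : List Arc} {x y : ℕ}, IsWalk x y P →
    (∀ a ∈ P, PT B p a) → p y = p x + tot P
  | [], x, y, h, _ => by
    have : x = y := h
    subst this
    simp [tot]
  | a :: P, x, y, h, hP => by
    obtain ⟨h1, h2⟩ := h
    have h3 := tot_p h2 fun b hb => hP b (List.mem_cons_of_mem _ hb)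
    have h4 := (hP a List.mem_cons_self).2
    rw [tot_cons]
    rw [h1] at h4
    omega

theorem tot_q : ∀ {P : List Arc} {x y : ℕ}, IsWalk x y P →
    (∀ a ∈ P, QT B q a) → q x = q y + tot P
  | [], x, y, h, _ => by
    have : x = y := h
    subst this
    simp [tot]
  | a :: P, x, y, h, hP => by
    obtain ⟨h1, h2⟩ := h
    have h3 := tot_q h2 fun b hb => hP b (List.mem_cons_of_mem _ hb)
    have h4 := (hP a List.mem_cons_self).2
    rw [tot_cons]
    rw [h1] at h4
    omega

end tele

theorem tot_sublist {P P' : List Arc} (h : P'.Sublist P) : tot P' ≤ tot P := by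
  unfold tot
  exact (h.map _).sum_le_sum (fun _ _ => Nat.zero_le _)

theorem exists_sigma {B : Arc → Prop} (n : ℕ) (R : List Arc) (hR : ∀ a ∈ R, B a)
    (hc : ∀ a ∈ R, ∀ b ∈ R, ¬ conf a b) : ∃ σ : Fin n → Bool, ∀ a ∈ R, Lo B n σ a := by
  classical
  refine ⟨fun i => !decide (∃ a ∈ R, idx a = i ∧ dir a = false), fun a ha => ⟨hR a ha, ?_⟩⟩
  intro h
  cases hd : dir a with
  | false =>
    rw [Bool.not_eq_false', decide_eq_true_eq]
    exact ⟨a, ha, rfl, hd⟩
  | true =>
    rw [Bool.not_eq_true', decide_eq_false_iff_not]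
    rintro ⟨b, hb, h1, h2⟩
    refine hc a ha b hb ⟨h1.symm, ?_⟩
    rw [hd, h2]
    decide

theorem ori_iff (hS : SimpStmt) (hC : ConsStmt) {B : Arc → Prop} {n M s t : ℕ} {p q : ℕ → ℕ}
    (hlab : Lab B) (hn : ∀ a, B a → n ≤ idx a → dir a = true) (hpot : Pot B p q)
    (ps : p s = 0) (qs : q s = 0)
    (pr : p t < M → ∃ P, IsWalk s t P ∧ (∀ a ∈ P, B a) ∧ tot P = p t)
    (pr' : ∀ P, IsWalk s t P → (∀ a ∈ P, B a) → p t < M)
    (qr : q t < M → ∃ Q, IsWalk t s Q ∧ (∀ a ∈ Q, B a) ∧ tot Q = q t)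
    (qr' : ∀ Q, IsWalk t s Q → (∀ a ∈ Q, B a) → q t < M) :
    (∃ σ : Fin n → Bool, Pres B n σ s t ∧ Pres B n σ t s) ↔
      (M ≤ p t ∨ M ≤ q t ∨ Good B p q t (s, s)) := by
  constructor
  · rintro ⟨σ, h1, h2⟩
    by_cases hp : M ≤ p t
    · exact Or.inl hp
    · by_cases hq : M ≤ q t
      · exact Or.inr (Or.inl hq)
      · right; right
        obtain ⟨P0, hP0, hPB0, hPt0⟩ := pr (by omega)
        obtain ⟨Q0, hQ0, hQB0, hQt0⟩ := qr (by omega)
        obtain ⟨P, hP, hPL, hPt⟩ := h1 P0 hP0 hPB0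
        obtain ⟨Q, hQ, hQL, hQt⟩ := h2 Q0 hQ0 hQB0
        refine ⟨P, Q, hP, hQ, ?_, ?_, ?_⟩
        · exact tight_p hpot hP (fun a ha => (hPL a ha).1) (by omega)
        · exact tight_q hpot hQ (fun a ha => (hQL a ha).1) (by omega)
        · rintro a ha b hb ⟨e1, e2⟩
          have ha' := hPL a ha
          have hb' := hQL b hb
          by_cases hi : idx a < n
          · have e3 := ha'.2 hi
            have e4 := hb'.2 (e1 ▸ hi)
            apply e2
            rw [← e3, ← e4]
            congr 1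
            exact Fin.ext e1
          · apply e2
            rw [hn a ha'.1 (by omega), hn b hb'.1 (by omega)]
  · intro h
    -- a list of arcs without conflicts that contains shortest walks
    have key : ∀ R : List Arc, (∀ a ∈ R, B a) → (∀ a ∈ R, ∀ b ∈ R, ¬ conf a b) →
        (p t < M → ∃ P, IsWalk s t P ∧ (∀ a ∈ P, a ∈ R) ∧ tot P ≤ p t) →
        (q t < M → ∃ Q, IsWalk t s Q ∧ (∀ a ∈ Q, a ∈ R) ∧ tot Q ≤ q t) →
        ∃ σ : Fin n → Bool, Pres B n σ s t ∧ Pres B n σ t s := by
      intro R hR hc h1 h2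
      obtain ⟨σ, hσ⟩ := exists_sigma n R hR hc
      refine ⟨σ, ?_, ?_⟩
      · intro P0 hP0 hPB0
        obtain ⟨P, hP, hPR, hPt⟩ := h1 (pr' P0 hP0 hPB0)
        have := tele_p hpot hP0 hPB0
        exact ⟨P, hP, fun a ha => hσ a (hPR a ha), by omega⟩
      · intro Q0 hQ0 hQB0
        obtain ⟨Q, hQ, hQR, hQt⟩ := h2 (qr' Q0 hQ0 hQB0)
        have := tele_q hpot hQ0 hQB0
        exact ⟨Q, hQ, fun a ha => hσ a (hQR a ha), by omega⟩
    by_cases hg : Good B p q t (s, s)
    · obtain ⟨P, Q, hP, hQ, hPT, hQT, hPQ⟩ := hg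
      have hPt := tot_p hP hPT
      have hQt := tot_q hQ hQT
      simp only at hPt hQt
      obtain ⟨P', hPs, hP', hPn, hPy⟩ := hS P s t hP
      obtain ⟨Q', hQs, hQ', hQn, hQy⟩ := hS Q t s hQ
      have hPc := hC B P' s t hlab hP' (fun a ha => (hPT a (hPs.subset ha)).1) hPn hPy
      have hQc := hC B Q' t s hlab hQ' (fun a ha => (hQT a (hQs.subset ha)).1) hQn hQy
      refine key (P' ++ Q') ?_ ?_ ?_ ?_
      · intro a ha
        rcases List.mem_append.1 ha with ha | ha
        · exact (hPT a (hPs.subset ha)).1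
        · exact (hQT a (hQs.subset ha)).1
      · intro a ha b hb
        rcases List.mem_append.1 ha with ha | ha <;> rcases List.mem_append.1 hb with hb | hb
        · exact hPc a ha b hb
        · exact hPQ a (hPs.subset ha) b (hQs.subset hb)
        · rintro ⟨e1, e2⟩
          exact hPQ b (hPs.subset hb) a (hQs.subset ha) ⟨e1.symm, e2.symm⟩
        · exact hQc a ha b hb
      · intro _
        refine ⟨P', hP', fun a ha => List.mem_append_left _ ha, ?_⟩
        have := tot_sublist hPs
        omega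
      · intro _
        refine ⟨Q', hQ', fun a ha => List.mem_append_right _ ha, ?_⟩
        have := tot_sublist hQs
        omega
    · have h' : M ≤ p t ∨ M ≤ q t := by
        rcases h with h | h | h
        · exact Or.inl h
        · exact Or.inr h
        · exact absurd h hg
      by_cases hp : M ≤ p t
      · by_cases hq : M ≤ q t
        · refine key [] (by simp) (by simp) (fun h => by omega) (fun h => by omega)
        · obtain ⟨Q, hQ, hQB, hQt⟩ := qr (by omega)
          obtain ⟨Q', hQs, hQ', hQn, hQy⟩ := hS Q t s hQ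
          have hQc := hC B Q' t s hlab hQ' (fun a ha => hQB a (hQs.subset ha)) hQn hQy
          refine key Q' (fun a ha => hQB a (hQs.subset ha)) hQc (fun h => by omega) ?_
          intro _
          refine ⟨Q', hQ', fun a ha => ha, ?_⟩
          have := tot_sublist hQs
          omega
      · have hq : M ≤ q t := h'.resolve_left hp
        obtain ⟨Q, hQ, hQB, hQt⟩ := pr (by omega)
        obtain ⟨Q', hQs, hQ', hQn, hQy⟩ := hS Q s t hQ
        have hQc := hC B Q' s t hlab hQ' (fun a ha => hQB a (hQs.subset ha)) hQn hQy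
        refine key Q' (fun a ha => hQB a (hQs.subset ha)) hQc ?_ (fun h => by omega)
        intro _
        refine ⟨Q', hQ', fun a ha => ha, ?_⟩
        have := tot_sublist hQs
        omega

end Pool.Agent.R547.MO
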