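import Pool.Agent.R547.MO.Algo

/-!
# Correctness of the search
-/

set_option autoImplicit false

namespace Pool.Agent.R547.MO

open Relation

theorem isWalk_append {P Q : List Arc} {x y : ℕ} :
    IsWalk x y (P ++ Q) ↔ ∃ z, IsWalk x z P ∧ IsWalk z y Q := by
  induction P generalizing x with
  | nil =>
    constructor
    · intro h; exact ⟨x, rfl, h⟩
    · rintro ⟨z, h1, h2⟩
      have : x = z := h1
      subst this
      exact h2
  | cons a P ih =>
    constructor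
    · rintro ⟨h1, h2⟩
      obtain ⟨z, h3, h4⟩ := ih.1 h2
      exact ⟨z, ⟨h1, h3⟩, h4⟩
    · rintro ⟨z, ⟨h1, h3⟩, h4⟩
      exact ⟨h1, ih.2 ⟨z, h3, h4⟩⟩

theorem reach_iff {L : Arc → Prop} {x y : ℕ} :
    Reach L x y ↔ ReflTransGen (fun u v => ∃ a, L a ∧ src a = u ∧ tgt a = v) x y := by
  constructor
  · rintro ⟨P, hP, hL⟩
    induction P generalizing x with
    | nil =>
      have : x = y := hP
      subst this
      exact .refl
    | cons a P ih =>
      obtain ⟨h1, h2⟩ := hP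
      exact ReflTransGen.head ⟨a, hL a List.mem_cons_self, h1, rfl⟩
        (ih h2 fun b hb => hL b (List.mem_cons_of_mem _ hb))
  · intro h
    induction h with
    | refl => exact ⟨[], rfl, by simp⟩
    | tail _ hbc ih =>
      obtain ⟨P, hP, hL⟩ := ih
      obtain ⟨a, ha, h1, h2⟩ := hbc
      refine ⟨P ++ [a], isWalk_append.2 ⟨_, hP, h1, h2⟩, ?_⟩
      intro b hb
      rcases List.mem_append.1 hb with hb | hb
      · exact hL b hb
      · rw [List.mem_singleton] at hb; rw [hb]; exact ha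

theorem rtg_mono {r r' : ℕ → ℕ → Prop} (h : ∀ u v, r u v → r' u v) {x y : ℕ}
    (hxy : ReflTransGen r x y) : ReflTransGen r' x y := by
  induction hxy with
  | refl => exact .refl
  | tail _ hbc ih => exact ih.tail (h _ _ hbc)

theorem reachL_iff {V : List ℕ} {L : List Arc} (hL : ∀ a ∈ L, tgt a ∈ V) {x y : ℕ} (hx : x ∈ V) :
    reachL V L x y = true ↔ Reach (fun a => a ∈ L) x y := by
  unfold reachL
  rw [decide_eq_true_eq, mem_reachG, reach_iff]
  constructor
  · rintro ⟨-, h⟩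
    refine rtg_mono ?_ h
    rintro u v ⟨h1, -⟩
    rw [List.any_eq_true] at h1
    obtain ⟨a, ha, h2⟩ := h1
    rw [Bool.and_eq_true, decide_eq_true_eq, decide_eq_true_eq] at h2
    exact ⟨a, ha, h2.1, h2.2⟩
  · intro h
    refine ⟨hx, rtg_mono ?_ h⟩
    rintro u v ⟨a, ha, h1, h2⟩
    refine ⟨?_, by rw [← h2]; exact hL a ha⟩
    rw [List.any_eq_true]
    exact ⟨a, ha, by rw [Bool.and_eq_true, decide_eq_true_eq, decide_eq_true_eq]; exact ⟨h1, h2⟩⟩

theorem confb_iff {a b : Arc} : confb a b = true ↔ conf a b := by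
  unfold confb conf
  rw [Bool.and_eq_true, Bool.not_eq_true', decide_eq_true_eq, decide_eq_false_iff_not]

theorem reach_congr {L L' : Arc → Prop} (h : ∀ a, L a ↔ L' a) {x y : ℕ} :
    Reach L x y ↔ Reach L' x y := by
  have : L = L' := by funext a; exact propext (h a)
  rw [this]

theorem bottb_iff {V : List ℕ} {L : List Arc} (hL : ∀ a ∈ L, tgt a ∈ V) {x x1 y1 y : ℕ}
    (hx : x ∈ V) (hy1 : y1 ∈ V) :
    bottb V L x x1 y1 y = true ↔ Bott (fun a => a ∈ L) x x1 y1 y := by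
  unfold bottb Bott
  rw [Bool.and_eq_true, reachL_iff hL hx,
    reachL_iff (fun a ha => hL a (List.mem_filter.1 ha).1) hy1]
  refine and_congr Iff.rfl (reach_congr fun b => ?_)
  rw [List.mem_filter, List.all_eq_true]
  refine and_congr Iff.rfl (forall_congr' fun a => ?_)
  refine imp_congr Iff.rfl ?_
  rw [Bool.or_eq_true, reachL_iff (fun c hc => hL c (List.mem_filter.1 hc).1) hx]
  have h1 : Reach (fun c => c ∈ L.filter fun c => !decide (c = a)) x x1 ↔
      Reach (fun c => c ∈ L ∧ c ≠ a) x x1 := reach_congr fun c => by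
    rw [List.mem_filter, Bool.not_eq_true', decide_eq_false_iff_not]
  rw [h1, Bool.not_eq_true', ← Bool.not_eq_true, confb_iff]
  tauto

theorem mem_ptl {M : ℕ} {T : List (ℕ × ℕ)} {B : List Arc} {a : Arc} :
    a ∈ ptl M T B ↔ PT (fun a => a ∈ B) (val M T) a := by
  unfold ptl PT
  rw [List.mem_filter, decide_eq_true_eq]

theorem mem_qtl {M : ℕ} {T : List (ℕ × ℕ)} {B : List Arc} {a : Arc} :
    a ∈ qtl M T B ↔ QT (fun a => a ∈ B) (val M T) a := by
  unfold qtl QT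
  rw [List.mem_filter, decide_eq_true_eq]

theorem mem_lv {M : ℕ} {Tp Tq : List (ℕ × ℕ)} {B : List Arc} {a : Arc} :
    a ∈ qtl M Tq (ptl M Tp B) ↔ Lv (fun a => a ∈ B) (val M Tp) (val M Tq) a := by
  unfold Lv
  rw [mem_qtl]
  unfold QT
  change (a ∈ ptl M Tp B ∧ _) ↔ _
  rw [mem_ptl]
  constructor
  · rintro ⟨h1, h2⟩; exact ⟨h1, h1.1, h2⟩
  · rintro ⟨h1, -, h2⟩; exact ⟨h1, h2⟩

section

variable (hAH : AHStmt)
include hAH

theorem bott_two {V : List ℕ} {M : ℕ} {Tp Tq : List (ℕ × ℕ)} {B : List Arc}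
    (hlab : Lab fun a => a ∈ B) (hB : ∀ a ∈ B, tgt a ∈ V) {x x1 y1 y : ℕ}
    (hx : x ∈ V) (hy1 : y1 ∈ V) :
    bottb V (qtl M Tq (ptl M Tp B)) x x1 y1 y = true ↔
      Two (Lv (fun a => a ∈ B) (val M Tp) (val M Tq)) x x1 y1 y := by
  have h1 : (fun a => a ∈ qtl M Tq (ptl M Tp B)) =
      Lv (fun a => a ∈ B) (val M Tp) (val M Tq) := by
    funext a
    exact propext mem_lv
  rw [bottb_iff (fun a ha => hB a (mem_lv.1 ha).1.1) hx hy1, h1]
  refine (hAH _ x x1 y1 y ⟨?_, ?_⟩).symm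
  · intro a b ha hb hc
    exact hlab.rev a b ha.1.1 hb.1.1 hc
  · intro a b ha hb h2 h3
    exact hlab.det a b ha.1.1 hb.1.1 h2 h3

theorem stepb_iff {V : List ℕ} {M : ℕ} {Tp Tq : List (ℕ × ℕ)} {B : List Arc}
    (hlab : Lab fun a => a ∈ B) (hB : ∀ a ∈ B, tgt a ∈ V) {z z' : ℕ × ℕ}
    (hz : z.1 ∈ V) :
    stepb V M Tp Tq B z z' = true ↔ Step (fun a => a ∈ B) (val M Tp) (val M Tq) z z' := by
  unfold stepb Step
  rw [Bool.or_eq_true, Bool.or_eq_true]
  refine or_congr ?_ (or_congr ?_ ?_)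
  · unfold step1
    rw [Bool.and_eq_true, Bool.and_eq_true, decide_eq_true_eq, decide_eq_true_eq,
      List.any_eq_true]
    refine and_congr Iff.rfl (and_congr Iff.rfl (exists_congr fun a => ?_))
    rw [mem_ptl, Bool.and_eq_true, decide_eq_true_eq, decide_eq_true_eq]
  · unfold step2
    rw [Bool.and_eq_true, Bool.and_eq_true, decide_eq_true_eq, decide_eq_true_eq,
      List.any_eq_true]
    refine and_congr Iff.rfl (and_congr Iff.rfl (exists_congr fun a => ?_))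
    rw [mem_qtl, Bool.and_eq_true, decide_eq_true_eq, decide_eq_true_eq]
  · unfold step3
    rw [Bool.and_eq_true, decide_eq_true_eq, List.any_eq_true]
    refine and_congr Iff.rfl (exists_congr fun a => ?_)
    rw [mem_ptl, List.any_eq_true]
    constructor
    · rintro ⟨ha, b, hb, h⟩
      rw [mem_qtl] at hb
      unfold pairb at h
      simp only [Bool.and_eq_true, decide_eq_true_eq, Bool.not_eq_true'] at h
      obtain ⟨h1, h2, h3, h4, h5, h6, h7, h8⟩ := h
      rw [bott_two hAH hlab hB hz (hB b hb.1)] at h6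
      exact ⟨b, ha, hb, h1, h2, h3, h4, by rw [← confb_iff, h5]; simp, h6, h7, h8⟩
    · rintro ⟨b, ha, hb, h1, h2, h3, h4, h5, h6, h7, h8⟩
      refine ⟨ha, b, mem_qtl.2 hb, ?_⟩
      unfold pairb
      simp only [Bool.and_eq_true, decide_eq_true_eq, Bool.not_eq_true']
      refine ⟨h1, h2, h3, h4, ?_, (bott_two hAH hlab hB hz (hB b hb.1)).2 h6, h7, h8⟩
      rw [← Bool.not_eq_true, confb_iff]
      exact h5

theorem srch_iff (hLev : LevStmt) {V : List ℕ} {M s t : ℕ} {Tp Tq : List (ℕ × ℕ)} {B : List Arc}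
    (hlab : Lab fun a => a ∈ B) (hs : ∀ a ∈ B, src a ∈ V) (hB : ∀ a ∈ B, tgt a ∈ V)
    (hsV : s ∈ V) (htV : t ∈ V) (hpot : Pot (fun a => a ∈ B) (val M Tp) (val M Tq)) :
    srch V M Tp Tq B s t = true ↔ Good (fun a => a ∈ B) (val M Tp) (val M Tq) t (s, s) := by
  unfold srch
  rw [List.any_eq_true, hLev _ _ _ t hlab hpot (s, s)]
  have hV : ∀ {z z' : ℕ × ℕ}, z ∈ V ×ˢ V → Step (fun a => a ∈ B) (val M Tp) (val M Tq) z z' →
      z' ∈ V ×ˢ V := by
    intro z z' hz h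
    rw [List.mem_product] at hz ⊢
    rcases h with ⟨-, h1, a, h2, -, h3⟩ | ⟨-, h1, b, h2, -, h3⟩ | ⟨-, a, b, h2, h3, h4⟩
    · rw [h1, ← h3]; exact ⟨hB a h2.1, hz.2⟩
    · rw [h1, ← h3]; exact ⟨hz.1, hs b h2.1⟩
    · rw [← h4.2.2.2.2.2.2.1, ← h4.2.2.2.2.2.2.2]
      exact ⟨hB a h2.1, hs b h3.1⟩
  have hfin : ∀ z : ℕ × ℕ, z ∈ V ×ˢ V → (finalb V M Tp Tq B t z = true ↔
      Final (fun a => a ∈ B) (val M Tp) (val M Tq) t z) := by
    intro z hz
    rw [List.mem_product] at hz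
    unfold finalb Final
    rw [Bool.and_eq_true, decide_eq_true_eq, bott_two hAH hlab hB hz.1 htV]
    exact Iff.rfl
  constructor
  · rintro ⟨z, hz, hf⟩
    rw [mem_reachG] at hz
    obtain ⟨h0, hz⟩ := hz
    have key : z ∈ V ×ˢ V ∧
        ReflTransGen (Step (fun a => a ∈ B) (val M Tp) (val M Tq)) (s, s) z := by
      clear hf
      induction hz with
      | refl => exact ⟨h0, .refl⟩
      | tail _ hbc ih =>
        exact ⟨hbc.2, ih.2.tail ((stepb_iff hAH hlab hB (List.mem_product.1 ih.1).1).1 hbc.1)⟩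
    exact ⟨z, key.2, (hfin z key.1).1 hf⟩
  · rintro ⟨z, hz, hf⟩
    have h0 : (s, s) ∈ V ×ˢ V := List.mem_product.2 ⟨hsV, hsV⟩
    have key : z ∈ V ×ˢ V ∧ ReflTransGen (fun a b => stepb V M Tp Tq B a b = true ∧
        b ∈ V ×ˢ V) (s, s) z := by
      clear hf
      induction hz with
      | refl => exact ⟨h0, .refl⟩
      | tail _ hbc ih =>
        have h1 := hV ih.1 hbc
        exact ⟨h1, ih.2.tail ⟨(stepb_iff hAH hlab hB (List.mem_product.1 ih.1).1).2 hbc, h1⟩⟩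
    exact ⟨z, mem_reachG.2 ⟨h0, key.2⟩, (hfin z key.1).2 hf⟩

end

end Pool.Agent.R547.MO
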